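import Pool.Agent.H.MP_6f30b3_lc.h34.BDef

/-!
MP_6f30b3_lc: the algorithm for graphs without large cliques, as functions on lists; all of them
are computable in polynomial time.
-/

namespace Pool.Agent.H.MP_6f30b3_lc.kt

open Pool.Agent.H.MP_6f30b3_lc.h34
open Pool.Agent.H.MP_5be563_lc.PT

/-- an instance and two lists of vertices -/
abbrev J := Inst × List ℕ × List ℕ

/-- same type with respect to two tuples -/
def aty (s : Inst) (D D' : List ℕ) (v w : ℕ) : Bool :=
  (List.range D.length).all fun i =>
    ((v == D.getD i 0) == (w == D'.getD i 0)) && (adj s v (D.getD i 0) == adj s w (D'.getD i 0))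

/-- edges inside cells -/
def aec (s : Inst) (D : List ℕ) (x y : ℕ) : Bool := adj s x y && aty s D D x y

/-- same unit -/
def aco (s : Inst) (X D : List ℕ) (v w : ℕ) : Bool :=
  X.any fun x => X.any fun y =>
    ((v == x) || aec s D v x) && (((x == y) || aec s D x y) && ((y == w) || aec s D y w))

/-- the unit of a vertex -/
def aun (s : Inst) (X D : List ℕ) (v : ℕ) : List ℕ := X.filter fun w => aco s X D v w

/-- the units are modules -/
def amd (s : Inst) (X D : List ℕ) : Bool :=
  X.all fun v => X.all fun w => X.all fun z =>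
    !(aec s D v w) || (aco s X D v z || (!(adj s z v) || adj s z w))

/-- domination -/
def adm (s : Inst) (X D : List ℕ) : Bool :=
  X.all fun v => (List.range D.length).any fun i => (v == D.getD i 0) || adj s v (D.getD i 0)

/-- degrees -/
def adg (s : Inst) (X D : List ℕ) (v : ℕ) (D0 : List ℕ) (u : ℕ) : ℕ :=
  (X.filter fun x => adj s v x && (!(aty s D D v x) && aty s D D0 x u)).length

/-- same label -/
def alb (s : Inst) (X D : List ℕ) (v : ℕ) (Y D' : List ℕ) (w : ℕ) : Bool :=
  aty s D D' v w && ((X.all fun u => adg s X D v D u == adg s Y D' w D u) &&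
    (Y.all fun u => adg s X D v D' u == adg s Y D' w D' u))

/-- same label and isomorphic units -/
def asim (R : J → Bool) (s : Inst) (X D : List ℕ) (v : ℕ) (Y D' : List ℕ) (w : ℕ) : Bool :=
  alb s X D v Y D' w && R (s, aun s X D v, aun s Y D' w)

/-- the count condition -/
def acnt (R : J → Bool) (s : Inst) (X D Y D' : List ℕ) : Bool :=
  (X.all fun v => (X.filter fun x => asim R s X D v X D x).length ==
    (Y.filter fun y => asim R s X D v Y D' y).length) &&
  (Y.all fun v => (X.filter fun x => asim R s Y D' v X D x).length ==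
    (Y.filter fun y => asim R s Y D' v Y D' y).length)

/-- all tuples -/
def tup : ℕ → List ℕ → List (List ℕ)
  | 0, _ => [[]]
  | c + 1, X => X.flatMap fun x => (tup c X).map fun t => x :: t

/-- isomorphism of the graphs induced by two lists of vertices, given an algorithm for the
units -/
def astep (b : Bool) (c : ℕ) (R : J → Bool) (p : J) : Bool :=
  (tup c p.2.1).any fun D => (tup c p.2.2).any fun D' =>
    (b || (adm p.1 p.2.1 D && adm p.1 p.2.2 D')) && ((amd p.1 p.2.1 D && amd p.1 p.2.2 D') &&
      acnt R p.1 p.2.1 D p.2.2 D')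

/-- the algorithm for connected graphs -/
def isoAlg : List ℕ → J → Bool
  | [] => fun _ => true
  | c :: cs => astep false c (isoAlg cs)

/-- the algorithm -/
def finAlg (cs : List ℕ) : J → Bool := astep true 0 (isoAlg cs)

/-- the instance together with the two lists of vertices -/
def sides (s : Inst) : J := (s, List.range s.1, (List.range s.2.1).map fun i => i + s.1)

section poly

variable {α : Type} [Enc α] {s : α → Inst} {X Y D D' D0 : α → List ℕ} {v w x y u : α → ℕ}

@[fun_prop]
theorem p_aty (hs : Poly s) (hD : Poly D) (hD' : Poly D') (hv : Poly v) (hw : Poly w) :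
    Poly (fun a => aty (s a) (D a) (D' a) (v a) (w a)) := by unfold aty; fun_prop

@[fun_prop]
theorem p_aec (hs : Poly s) (hD : Poly D) (hv : Poly v) (hw : Poly w) :
    Poly (fun a => aec (s a) (D a) (v a) (w a)) := by unfold aec; fun_prop

@[fun_prop]
theorem p_aco (hs : Poly s) (hX : Poly X) (hD : Poly D) (hv : Poly v) (hw : Poly w) :
    Poly (fun a => aco (s a) (X a) (D a) (v a) (w a)) := by unfold aco; fun_prop

@[fun_prop]
theorem p_aun (hs : Poly s) (hX : Poly X) (hD : Poly D) (hv : Poly v) :
    Poly (fun a => aun (s a) (X a) (D a) (v a)) := by unfold aun; fun_prop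

@[fun_prop]
theorem p_amd (hs : Poly s) (hX : Poly X) (hD : Poly D) :
    Poly (fun a => amd (s a) (X a) (D a)) := by unfold amd; fun_prop

@[fun_prop]
theorem p_adm (hs : Poly s) (hX : Poly X) (hD : Poly D) :
    Poly (fun a => adm (s a) (X a) (D a)) := by unfold adm; fun_prop

@[fun_prop]
theorem p_adg (hs : Poly s) (hX : Poly X) (hD : Poly D) (hv : Poly v) (hD0 : Poly D0)
    (hu : Poly u) : Poly (fun a => adg (s a) (X a) (D a) (v a) (D0 a) (u a)) := by
  unfold adg; fun_prop

@[fun_prop]
theorem p_alb (hs : Poly s) (hX : Poly X) (hD : Poly D) (hv : Poly v) (hY : Poly Y)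
    (hD' : Poly D') (hw : Poly w) :
    Poly (fun a => alb (s a) (X a) (D a) (v a) (Y a) (D' a) (w a)) := by
  unfold alb; fun_prop

@[fun_prop]
theorem p_asim {R : J → Bool} (hR : Poly R) (hs : Poly s) (hX : Poly X) (hD : Poly D)
    (hv : Poly v) (hY : Poly Y) (hD' : Poly D') (hw : Poly w) :
    Poly (fun a => asim R (s a) (X a) (D a) (v a) (Y a) (D' a) (w a)) := by
  unfold asim; fun_prop

@[fun_prop]
theorem p_acnt {R : J → Bool} (hR : Poly R) (hs : Poly s) (hX : Poly X) (hD : Poly D)
    (hY : Poly Y) (hD' : Poly D') :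
    Poly (fun a => acnt R (s a) (X a) (D a) (Y a) (D' a)) := by
  unfold acnt; fun_prop

theorem p_tup0 (c : ℕ) : Poly (tup c) := by
  induction c with
  | zero =>
    show Poly (fun _ : List ℕ => ([[]] : List (List ℕ)))
    fun_prop
  | succ c ih =>
    show Poly (fun X : List ℕ => X.flatMap fun x => (tup c X).map fun t => x :: t)
    fun_prop

@[fun_prop]
theorem p_tup (c : ℕ) (hX : Poly X) : Poly (fun a => tup c (X a)) := (p_tup0 c).comp hX

theorem p_astep (b : Bool) (c : ℕ) {R : J → Bool} (hR : Poly R) : Poly (astep b c R) := by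
  unfold astep
  fun_prop

theorem p_isoAlg (cs : List ℕ) : Poly (isoAlg cs) := by
  induction cs with
  | nil => unfold isoAlg; fun_prop
  | cons c cs ih =>
    unfold isoAlg
    exact p_astep _ _ ih

theorem p_finAlg (cs : List ℕ) : Poly (finAlg cs) := p_astep _ _ (p_isoAlg cs)

@[fun_prop]
theorem p_sides (hs : Poly s) : Poly (fun a => sides (s a)) := by
  unfold sides; fun_prop

end poly

end Pool.Agent.H.MP_6f30b3_lc.kt
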