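import Pool.Agent.H.MP_6f30b3_lc.kt.Good
import Pool.Agent.H.MP_6f30b3_lc.h34.Assemble

/-!
MP_6f30b3_lc: isomorphism of two graphs with distinguished vertices in terms of counts.
-/

namespace Pool.Agent.H.MP_6f30b3_lc.kt

open Pool.Agent.H.MP_6f30b3_lc.h34

variable {α β γ : Type} {c : ℕ} {E : α → α → Prop} {F : β → β → Prop} {H : γ → γ → Prop}
  {D : Fin c → α} {D' : Fin c → β} {D'' : Fin c → γ}

/-- the type of a vertex with respect to a tuple -/
def ty (E : α → α → Prop) (D : Fin c → α) (v : α) : Fin c → Prop × Prop :=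
  fun i => (v = D i, E v (D i))

/-- edges between vertices of the same type -/
def eD (E : α → α → Prop) (D : Fin c → α) (x y : α) : Prop := E x y ∧ ty E D x = ty E D y

/-- the units are modules -/
def Md (E : α → α → Prop) (D : Fin c → α) : Prop :=
  ∀ v w z, eD E D v w → ¬ co (eD E D) v z → E z v → E z w

/-- the number of neighbours of a type different from the own type -/
noncomputable def dg (E : α → α → Prop) (D : Fin c → α) (v : α) (t : Fin c → Prop × Prop) : ℕ :=
  Nat.card {x // E v x ∧ ty E D v ≠ ty E D x ∧ ty E D x = t}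

/-- the label of a vertex -/
noncomputable def lb (E : α → α → Prop) (D : Fin c → α) (v : α) :
    (Fin c → Prop × Prop) × ((Fin c → Prop × Prop) → ℕ) := (ty E D v, dg E D v)

/-- isomorphism -/
def IsoR (E : α → α → Prop) (F : β → β → Prop) : Prop :=
  ∃ e : α ≃ β, ∀ x y, E x y ↔ F (e x) (e y)

/-- isomorphic units -/
def UI (E : α → α → Prop) (D : Fin c → α) (v : α) (F : β → β → Prop) (D' : Fin c → β) (w : β) :
    Prop :=
  IsoR (fun x y : {x // co (eD E D) v x} => E x.1 y.1)
    (fun x y : {y // co (eD F D') w y} => F x.1 y.1)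

/-- same label and isomorphic units -/
def SIM (E : α → α → Prop) (D : Fin c → α) (v : α) (F : β → β → Prop) (D' : Fin c → β) (w : β) :
    Prop := lb E D v = lb F D' w ∧ UI E D v F D' w

theorem IsoR.refl (E : α → α → Prop) : IsoR E E := ⟨Equiv.refl _, fun _ _ => Iff.rfl⟩

theorem IsoR.symm (h : IsoR E F) : IsoR F E := by
  obtain ⟨e, he⟩ := h
  refine ⟨e.symm, fun x y => ?_⟩
  rw [he, Equiv.apply_symm_apply, Equiv.apply_symm_apply]

theorem IsoR.trans (h : IsoR E F) (h' : IsoR F H) : IsoR E H := by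
  obtain ⟨e, he⟩ := h
  obtain ⟨f, hf⟩ := h'
  exact ⟨e.trans f, fun x y => (he x y).trans (hf _ _)⟩

theorem SIM.refl (v : α) : SIM E D v E D v := ⟨rfl, IsoR.refl _⟩

theorem SIM.symm {v : α} {w : β} (h : SIM E D v F D' w) : SIM F D' w E D v :=
  ⟨h.1.symm, IsoR.symm h.2⟩

theorem SIM.trans {v : α} {w : β} {u : γ} (h : SIM E D v F D' w) (h' : SIM F D' w H D'' u) :
    SIM E D v H D'' u := ⟨h.1.trans h'.1, IsoR.trans h.2 h'.2⟩

theorem eD.isG (hG : IsG E) : IsG (eD E D) :=
  ⟨fun h => ⟨hG.symm h.1, h.2.symm⟩, fun h => hG.irr h.1⟩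

theorem eD.noP5 (hP : NoP5 E) : NoP5 (eD E D) := by
  intro a b c d e ⟨h1, h2, h3, h4, h5, h6, h7, h8, h9, h10⟩
  have s1 := h1.2.trans h2.2
  have s2 := s1.trans h3.2
  have s3 := s2.trans h4.2
  have s4 := h2.2.trans h3.2
  have s5 := s4.trans h4.2
  have s6 := h3.2.trans h4.2
  exact hP a b c d e ⟨h1.1, h2.1, h3.1, h4.1, fun h => h5 ⟨h, s1⟩, fun h => h6 ⟨h, s2⟩,
    fun h => h7 ⟨h, s3⟩, fun h => h8 ⟨h, s4⟩, fun h => h9 ⟨h, s5⟩, fun h => h10 ⟨h, s6⟩⟩

theorem co_ty {v w : α} (h : co (eD E D) v w) : ty E D v = ty E D w :=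
  co_lift (R := eD E D) (T := fun x y => ty E D x = ty E D y) (fun _ => rfl)
    (fun _ _ _ h h' => h.trans h') (fun _ _ h => h.2) h

theorem ty_eq {v w : α} (h : ty E D v = ty E D w) (i : Fin c) :
    (v = D i ↔ w = D i) ∧ (E v (D i) ↔ E w (D i)) := by
  have h1 := congrFun h i
  exact ⟨iff_of_eq (congrArg Prod.fst h1), iff_of_eq (congrArg Prod.snd h1)⟩

/-- neighbourhoods in another cell are nested -/
theorem nested (hG : IsG E) (hP : NoP5 E) (hM : Md E D) {x1 x2 y1 y2 : α}
    (hx : ty E D x1 = ty E D x2) (hy : ty E D y1 = ty E D y2) (hxy : ty E D x1 ≠ ty E D y1)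
    (h1 : E x1 y1) (h2 : E x2 y2) : E x1 y2 ∨ E x2 y1 := by
  by_contra hcon
  push Not at hcon
  obtain ⟨n1, n2⟩ := hcon
  have nx : ¬ E x1 x2 := by
    intro h
    have g := hM x2 x1 y2 ⟨hG.symm h, hx.symm⟩ (fun g => hxy (hx.trans ((co_ty g).trans hy.symm)))
      (hG.symm h2)
    exact n1 (hG.symm g)
  have ny : ¬ E y1 y2 := by
    intro h
    exact n1 (hM y1 y2 x1 ⟨h, hy⟩ (fun g => hxy (co_ty g).symm) h1)
  obtain ⟨i, hi⟩ := Function.ne_iff.1 hxy
  have ex := ty_eq hx i
  have ey := ty_eq hy i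
  by_cases g1 : x1 = D i
  · have g2 : x2 = D i := ex.1.1 g1
    rw [← g2] at g1
    rw [g1] at n1
    exact n1 h2
  by_cases g2 : y1 = D i
  · have g3 : y2 = D i := ey.1.1 g2
    rw [← g3] at g2
    rw [g2] at h1
    exact n1 h1
  by_cases g3 : E x1 (D i)
  · by_cases g4 : E y1 (D i)
    · exact hi (Prod.ext (propext ⟨fun h => absurd h g1, fun h => absurd h g2⟩)
        (propext ⟨fun _ => g4, fun _ => g3⟩))
    · exact hP y1 x1 (D i) x2 y2 ⟨hG.symm h1, g3, hG.symm (ex.2.1 g3), h2, g4,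
        fun h => n2 (hG.symm h), ny, nx, n1, fun h => g4 (ey.2.2 (hG.symm h))⟩
  · by_cases g4 : E y1 (D i)
    · exact hP x1 y1 (D i) y2 x2 ⟨h1, g4, hG.symm (ey.2.1 g4), hG.symm h2, g3, n1, nx, ny,
        fun h => n2 (hG.symm h), fun h => g3 (ex.2.2 (hG.symm h))⟩
    · exact hi (Prod.ext (propext ⟨fun h => absurd h g1, fun h => absurd h g2⟩)
        (propext ⟨fun h => absurd h g3, fun h => absurd h g4⟩))

theorem cle [Finite α] {p q : α → Prop} (h : ∀ x, p x → q x) :
    Nat.card {x // p x} ≤ Nat.card {x // q x} :=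
  Nat.card_le_card_of_injective (Subtype.map id h) (Subtype.map_injective h Function.injective_id)

theorem clt [Finite α] {p q : α → Prop} (h : ∀ x, p x → q x) (x0 : α) (h0 : q x0) (h0' : ¬ p x0) :
    Nat.card {x // p x} < Nat.card {x // q x} := by
  have h1 : ({x | p x} : Set α) ⊂ {x | q x} :=
    ⟨h, fun h2 => h0' (h2 h0)⟩
  exact Set.ncard_lt_ncard h1 (Set.toFinite _)

/-- adjacency between different cells is determined by the labels -/
theorem adj_iff_card [Finite α] (hG : IsG E) (hP : NoP5 E) (hM : Md E D) {v w : α}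
    (h : ty E D v ≠ ty E D w) : E v w ↔
      Nat.card {x // ty E D x = ty E D v ∧ dg E D v (ty E D w) ≤ dg E D x (ty E D w)} ≤
        dg E D w (ty E D v) := by
  constructor
  · intro hvw
    refine cle fun x ⟨hx, hle⟩ => ?_
    refine ⟨?_, fun h' => h (hx.symm.trans h'.symm), hx⟩
    by_contra hn
    have hlt : dg E D x (ty E D w) < dg E D v (ty E D w) := by
      refine clt (fun y ⟨h1, h2, h3⟩ => ⟨?_, fun h' => h2 (hx.trans h'), h3⟩) w
        ⟨hvw, h, rfl⟩ (fun g => hn (hG.symm g.1))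
      rcases nested hG hP hM hx h3 h2 h1 hvw with g | g
      · exact absurd (hG.symm g) hn
      · exact g
    omega
  · intro hle
    by_contra hn
    have hlt : dg E D w (ty E D v) <
        Nat.card {x // ty E D x = ty E D v ∧ dg E D v (ty E D w) ≤ dg E D x (ty E D w)} := by
      refine clt (fun x ⟨h1, h2, h3⟩ => ⟨h3, cle fun y ⟨g1, g2, g3⟩ => ⟨?_, fun h' => g2
        (h3.symm.trans h'), g3⟩⟩) v ⟨rfl, le_rfl⟩ (fun g => hn (hG.symm g.1))
      rcases nested hG hP hM h3.symm g3 g2 g1 (hG.symm h1) with g | g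
      · exact absurd g hn
      · exact g
    omega

/-- a bijection from equal numbers in all classes -/
theorem match_classes [Finite α] [Finite β] (R : α ⊕ β → α ⊕ β → Prop) (hR : Equivalence R)
    (hcard : ∀ z, Nat.card {x : α // R (Sum.inl x) z} = Nat.card {y : β // R (Sum.inr y) z}) :
    ∃ f : α ≃ β, ∀ x, R (Sum.inl x) (Sum.inr (f x)) := by
  let S : Setoid (α ⊕ β) := ⟨R, hR⟩
  let tα : α → Quotient S := fun x => Quotient.mk S (Sum.inl x)
  let tβ : β → Quotient S := fun y => Quotient.mk S (Sum.inr y)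
  have hc : ∀ θ, Nat.card {x // tα x = θ} = Nat.card {y // tβ y = θ} := by
    intro θ
    induction θ using Quotient.inductionOn with
    | h z =>
      have e1 : Nat.card {x // tα x = Quotient.mk S z} = Nat.card {x : α // R (Sum.inl x) z} :=
        Nat.card_congr (Equiv.subtypeEquivRight fun x =>
          ⟨fun h => Quotient.exact h, fun h => Quotient.sound h⟩)
      have e2 : Nat.card {y // tβ y = Quotient.mk S z} = Nat.card {y : β // R (Sum.inr y) z} :=
        Nat.card_congr (Equiv.subtypeEquivRight fun x =>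
          ⟨fun h => Quotient.exact h, fun h => Quotient.sound h⟩)
      rw [e1, e2, hcard]
  let σ : α ≃ β := Equiv.ofFiberEquiv (f := tα) (g := tβ) fun θ =>
    Classical.choice (Finite.card_eq.1 (hc θ))
  refine ⟨σ, fun x => ?_⟩
  have h1 : tβ (σ x) = tα x := Equiv.ofFiberEquiv_map _ x
  exact Quotient.exact h1.symm

/-- `SIM` on the union of the two graphs -/
def RS (E : α → α → Prop) (D : Fin c → α) (F : β → β → Prop) (D' : Fin c → β) :
    α ⊕ β → α ⊕ β → Prop
  | .inl a, .inl b => SIM E D a E D b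
  | .inl a, .inr b => SIM E D a F D' b
  | .inr a, .inl b => SIM F D' a E D b
  | .inr a, .inr b => SIM F D' a F D' b

theorem RS.equivalence : Equivalence (RS E D F D') := by
  refine ⟨?_, ?_, ?_⟩
  · rintro (a | a)
    · exact SIM.refl a
    · exact SIM.refl a
  · rintro (a | a) (b | b) h <;> exact SIM.symm h
  · rintro (a | a) (b | b) (d | d) h h' <;> exact SIM.trans h h'

/-- the count condition -/
def Cnt (E : α → α → Prop) (D : Fin c → α) (F : β → β → Prop) (D' : Fin c → β) : Prop :=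
  (∀ v : α, Nat.card {x // SIM E D v E D x} = Nat.card {y // SIM E D v F D' y}) ∧
  (∀ v : β, Nat.card {x // SIM F D' v E D x} = Nat.card {y // SIM F D' v F D' y})

/-- labels are constant on units -/
theorem lb_co (hG : IsG E) (hP : NoP5 E) (hM : Md E D) {v w : α} (h : co (eD E D) v w) :
    lb E D v = lb E D w := by
  have hG' : IsG (eD E D) := eD.isG hG
  have hP' : NoP5 (eD E D) := eD.noP5 hP
  refine Prod.ext (co_ty h) (funext fun t => ?_)
  show Nat.card _ = Nat.card _
  have key : ∀ x, (ty E D v ≠ ty E D x) → (E v x ↔ E w x) := by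
    intro x hx
    have : ∀ y, co (eD E D) v y → (E v x ↔ E y x) := by
      have st : ∀ a b, co (eD E D) v a → (a = b ∨ eD E D a b) → co (eD E D) v b ∧
          (E a x ↔ E b x) := by
        rintro a b ha (rfl | hab)
        · exact ⟨ha, Iff.rfl⟩
        · have hb := ha.step hP' hab
          refine ⟨hb, fun g => ?_, fun g => ?_⟩
          · exact hG.symm (hM a b x hab (fun g' => hx ((co_ty ha).trans (co_ty g'))) (hG.symm g))
          · exact hG.symm (hM b a x (hG'.symm hab)
              (fun g' => hx ((co_ty hb).trans (co_ty g'))) (hG.symm g))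
      rintro y ⟨a, b, g1, g2, g3⟩
      obtain ⟨f1, e1⟩ := st v a (co.refl v) g1
      obtain ⟨f2, e2⟩ := st a b f1 g2
      obtain ⟨f3, e3⟩ := st b y f2 g3
      exact e1.trans (e2.trans e3)
    exact this w h
  refine Nat.card_congr (Equiv.subtypeEquivRight fun x => ?_)
  rw [← co_ty h]
  constructor
  · rintro ⟨h1, h2, h3⟩
    exact ⟨(key x h2).1 h1, h2, h3⟩
  · rintro ⟨h1, h2, h3⟩
    exact ⟨(key x h2).2 h1, h2, h3⟩

theorem SIM.of_co (hG : IsG E) (hP : NoP5 E) (hM : Md E D) {v w : α} (h : co (eD E D) v w) :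
    SIM E D v E D w := by
  have hG' : IsG (eD E D) := eD.isG hG
  have hP' : NoP5 (eD E D) := eD.noP5 hP
  refine ⟨lb_co hG hP hM h, ?_⟩
  refine ⟨Equiv.subtypeEquivRight fun x =>
    ⟨fun h' => (h.symm hG').trans hP' h', fun h' => h.trans hP' h'⟩, fun x y => Iff.rfl⟩

/-- equal counts give an isomorphism -/
theorem step_sound [Finite α] [Finite β] (hG : IsG E) (hP : NoP5 E) (hG' : IsG F) (hP' : NoP5 F)
    (hM : Md E D) (hM' : Md F D') (hC : Cnt E D F D') : IsoR E F := by
  have hR : Equivalence (RS E D F D') := RS.equivalence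
  have sy : ∀ {γ : Type} (p q : γ → Prop), (∀ x, p x ↔ q x) →
      Nat.card {x // p x} = Nat.card {x // q x} := fun p q h =>
    Nat.card_congr (Equiv.subtypeEquivRight h)
  have hcard : ∀ z, Nat.card {x : α // RS E D F D' (Sum.inl x) z} =
      Nat.card {y : β // RS E D F D' (Sum.inr y) z} := by
    rintro (z | z)
    · have h1 := hC.1 z
      rw [sy (fun x => SIM E D z E D x) (fun x => SIM E D x E D z)
        (fun x => ⟨SIM.symm, SIM.symm⟩),
        sy (fun x => SIM E D z F D' x) (fun x => SIM F D' x E D z)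
        (fun x => ⟨SIM.symm, SIM.symm⟩)] at h1
      exact h1
    · have h1 := hC.2 z
      rw [sy (fun x => SIM F D' z E D x) (fun x => SIM E D x F D' z)
        (fun x => ⟨SIM.symm, SIM.symm⟩),
        sy (fun x => SIM F D' z F D' x) (fun x => SIM F D' x F D' z)
        (fun x => ⟨SIM.symm, SIM.symm⟩)] at h1
      exact h1
  obtain ⟨f, hf⟩ := match_classes _ hR hcard
  have hN : ∀ P : (Fin c → Prop × Prop) × ((Fin c → Prop × Prop) → ℕ) → Prop,
      Nat.card {x // P (lb E D x)} = Nat.card {y // P (lb F D' y)} := by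
    intro P
    refine Nat.card_congr (f.subtypeEquiv fun x => ?_)
    have h1 : lb E D x = lb F D' (f x) := (hf x).1
    rw [h1]
  let r : Setoid α := ⟨fun x y => co (eD E D) x y, fun _ => co.refl _,
    fun h => h.symm (eD.isG hG), fun h h' => h.trans (eD.noP5 hP) h'⟩
  let s : Setoid β := ⟨fun x y => co (eD F D') x y, fun _ => co.refl _,
    fun h => h.symm (eD.isG hG'), fun h h' => h.trans (eD.noP5 hP') h'⟩
  obtain ⟨e, h1, -⟩ := assemble E F (lb E D) (lb F D') r s (RS E D F D') hR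
    (fun x y h => SIM.of_co hG hP hM h) (fun x y h => SIM.of_co hG' hP' hM' h) hcard
    (fun a b hab => by
      obtain ⟨h1, e, he⟩ := (hab : SIM E D a F D' b)
      refine ⟨e, he, fun x => ?_⟩
      rw [← lb_co hG hP hM x.2, h1]
      exact lb_co hG' hP' hM' (e x).2)
    (fun l l' => l.1 ≠ l'.1 ∧
      Nat.card {x // (lb E D x).1 = l.1 ∧ l.2 l'.1 ≤ (lb E D x).2 l'.1} ≤ l'.2 l.1)
    (fun x y hxy => by
      by_cases ht : ty E D x = ty E D y
      · refine ⟨fun h => ?_, fun h => absurd ht h.1⟩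
        have h0 : eD E D x y := ⟨h, ht⟩
        exact absurd (co.of_adj h0) hxy
      · exact (adj_iff_card hG hP hM ht).trans ⟨fun h => ⟨ht, h⟩, fun h => h.2⟩)
    (fun x y hxy => by
      by_cases ht : ty F D' x = ty F D' y
      · refine ⟨fun h => ?_, fun h => absurd ht h.1⟩
        have h0 : eD F D' x y := ⟨h, ht⟩
        exact absurd (co.of_adj h0) hxy
      · rw [hN fun l => l.1 = (lb F D' x).1 ∧ (lb F D' x).2 (lb F D' y).1 ≤ l.2 (lb F D' y).1]
        exact (adj_iff_card hG' hP' hM' ht).trans ⟨fun h => ⟨ht, h⟩, fun h => h.2⟩)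
  exact ⟨e, h1⟩

/-! ### the converse -/

section conv

variable (e : α ≃ β) (he : ∀ x y, E x y ↔ F (e x) (e y))

include he

theorem ty_map (v : α) : ty F (fun i => e (D i)) (e v) = ty E D v := by
  funext i
  exact Prod.ext (propext e.apply_eq_iff_eq) (propext (he v (D i)).symm)

theorem eD_map (v w : α) : eD E D v w ↔ eD F (fun i => e (D i)) (e v) (e w) := by
  unfold eD
  rw [ty_map e he, ty_map e he, he]

theorem co_map (v w : α) : co (eD E D) v w ↔ co (eD F fun i => e (D i)) (e v) (e w) := by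
  constructor
  · rintro ⟨x, y, h1, h2, h3⟩
    have key : ∀ {a b : α}, (a = b ∨ eD E D a b) →
        (e a = e b ∨ eD F (fun i => e (D i)) (e a) (e b)) := by
      rintro a b (rfl | h)
      · exact Or.inl rfl
      · exact Or.inr ((eD_map e he a b).1 h)
    exact ⟨e x, e y, key h1, key h2, key h3⟩
  · rintro ⟨x, y, h1, h2, h3⟩
    obtain ⟨x, rfl⟩ := e.surjective x
    obtain ⟨y, rfl⟩ := e.surjective y
    have key : ∀ {a b : α}, (e a = e b ∨ eD F (fun i => e (D i)) (e a) (e b)) →
        (a = b ∨ eD E D a b) := by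
      rintro a b (h | h)
      · exact Or.inl (e.injective h)
      · exact Or.inr ((eD_map e he a b).2 h)
    exact ⟨x, y, key h1, key h2, key h3⟩

theorem Md.map (hM : Md E D) : Md F (fun i => e (D i)) := by
  intro v w z h1 h2 h3
  obtain ⟨v, rfl⟩ := e.surjective v
  obtain ⟨w, rfl⟩ := e.surjective w
  obtain ⟨z, rfl⟩ := e.surjective z
  rw [← he] at h3 ⊢
  exact hM v w z ((eD_map e he v w).2 h1) (fun h => h2 ((co_map e he v z).1 h)) h3

theorem SIM_map (v : α) : SIM E D v F (fun i => e (D i)) (e v) := by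
  refine ⟨?_, ?_⟩
  · refine Prod.ext (ty_map e he v).symm (funext fun t => ?_)
    refine Nat.card_congr (e.subtypeEquiv fun x => ?_)
    rw [ty_map e he, ty_map e he, he]
  · exact ⟨e.subtypeEquiv fun x => co_map e he v x, fun x y => he _ _⟩

theorem Cnt_map : Cnt E D F (fun i => e (D i)) := by
  constructor
  · intro v
    refine Nat.card_congr (e.subtypeEquiv fun x => ?_)
    exact ⟨fun h => h.trans (SIM_map e he x), fun h => h.trans (SIM_map e he x).symm⟩
  · intro v
    refine Nat.card_congr (e.subtypeEquiv fun x => ?_)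
    exact ⟨fun h => h.trans (SIM_map e he x), fun h => h.trans (SIM_map e he x).symm⟩

end conv

/-- domination -/
def Dm (E : α → α → Prop) (D : Fin c → α) : Prop := ∀ v, ∃ i, v = D i ∨ E v (D i)

theorem Dm.map (e : α ≃ β) (he : ∀ x y, E x y ↔ F (e x) (e y)) (h : Dm E D) :
    Dm F (fun i => e (D i)) := by
  intro v
  obtain ⟨v, rfl⟩ := e.surjective v
  obtain ⟨i, hi⟩ := h v
  refine ⟨i, ?_⟩
  rcases hi with hi | hi
  · exact Or.inl (congrArg e hi)
  · exact Or.inr ((he _ _).1 hi)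

/-- good tuples exist -/
theorem good (k : ℕ) : ∃ c : ℕ, ∀ (α : Type) [Finite α] [Nonempty α]
    (E : α → α → Prop), IsG E → NoP5 E → KF E (k + 1) (fun _ => True) → (∀ x y, co E x y) →
      ∃ D : Fin c → α, Dm E D ∧ Md E D := by
  obtain ⟨c, hc⟩ := goodset k k le_rfl
  refine ⟨c, ?_⟩
  intro α _ _ E hG hP hk hcn
  classical
  obtain ⟨A, h1, h2, h3⟩ := hc α E hG hP hk hcn
  have hne : A.Nonempty := by
    obtain ⟨v⟩ := ‹Nonempty α›
    obtain ⟨d, hd, -⟩ := h2 v
    exact ⟨d, hd⟩
  obtain ⟨D, hD⟩ : ∃ D : Fin c → α, ∀ a, a ∈ A ↔ ∃ i, D i = a := by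
    obtain ⟨a0, ha0⟩ := hne
    let g : Fin A.card ≃ A := A.equivFin.symm
    refine ⟨fun i => if h : i.1 < A.card then (g ⟨i.1, h⟩).1 else a0, fun a => ⟨fun ha => ?_, ?_⟩⟩
    · obtain ⟨j, hj⟩ := g.surjective ⟨a, ha⟩
      refine ⟨⟨j.1, lt_of_lt_of_le j.2 h1⟩, ?_⟩
      show (if h : j.1 < A.card then (g ⟨j.1, h⟩).1 else a0) = a
      rw [dif_pos j.2]
      exact congrArg Subtype.val hj
    · rintro ⟨i, rfl⟩
      by_cases h : i.1 < A.card
      · simp only [dif_pos h]
        exact (g ⟨i.1, h⟩).2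
      · simp only [dif_neg h]
        exact ha0
  have hty : ∀ v w, ty E D v = ty E D w ↔ sty E A v w := by
    intro v w
    constructor
    · intro h a ha
      obtain ⟨i, rfl⟩ := (hD a).1 ha
      exact ty_eq h i
    · intro h
      funext i
      have := h (D i) ((hD _).2 ⟨i, rfl⟩)
      exact Prod.ext (propext this.1) (propext this.2)
  have heD : eD E D = ec E A := by
    funext v w
    exact propext (and_congr_right fun _ => hty v w)
  refine ⟨D, fun v => ?_, ?_⟩
  · obtain ⟨d, hd, h4⟩ := h2 v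
    obtain ⟨i, rfl⟩ := (hD d).1 hd
    exact ⟨i, h4⟩
  · intro v w z g1 g2 g3
    by_contra g4
    rw [heD] at g1 g2
    have g5 := h3 v ⟨w, z, g1, g2, g3, g4⟩
    rw [Nat.sub_self] at g5
    exact g5 v (co.refl v)

end Pool.Agent.H.MP_6f30b3_lc.kt
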