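import Pool.Agent.H.MP_6f30b3_lc.kt.Alg
import Pool.Agent.H.MP_6f30b3_lc.kt.Step
import Pool.Agent.H.MP_6f30b3_lc.h34.Parse

/-!
MP_6f30b3_lc: correctness of the algorithm for graphs without large cliques.
-/

namespace Pool.Agent.H.MP_6f30b3_lc.kt

open Pool.Agent.H.MP_6f30b3_lc.h34

/-- adjacency on a list of vertices -/
def AX (s : Inst) (X : List ℕ) (x y : {x // x ∈ X}) : Prop := adj s x.1 y.1 = true

theorem all_sub {X : List ℕ} {p : ℕ → Bool} {P : {x // x ∈ X} → Prop}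
    (h : ∀ v : {x // x ∈ X}, p v.1 = true ↔ P v) : X.all p = true ↔ ∀ v, P v := by
  rw [List.all_eq_true]
  exact ⟨fun h1 v => (h v).1 (h1 v.1 v.2), fun h1 x hx => (h ⟨x, hx⟩).2 (h1 ⟨x, hx⟩)⟩

theorem any_sub {X : List ℕ} {p : ℕ → Bool} {P : {x // x ∈ X} → Prop}
    (h : ∀ v : {x // x ∈ X}, p v.1 = true ↔ P v) : X.any p = true ↔ ∃ v, P v := by
  rw [List.any_eq_true]
  exact ⟨fun ⟨x, hx, h1⟩ => ⟨⟨x, hx⟩, (h ⟨x, hx⟩).1 h1⟩, fun ⟨v, h1⟩ => ⟨v.1, v.2, (h v).2 h1⟩⟩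

theorem cnt_sub {X : List ℕ} (hX : X.Nodup) {p : ℕ → Bool} {P : {x // x ∈ X} → Prop}
    (h : ∀ v : {x // x ∈ X}, p v.1 = true ↔ P v) : (X.filter p).length = Nat.card {v // P v} := by
  have e : {v // P v} ≃ {x // x ∈ (X.filter p).toFinset} :=
    ⟨fun v => ⟨v.1.1, List.mem_toFinset.2 (List.mem_filter.2 ⟨v.1.2, (h v.1).2 v.2⟩)⟩,
      fun x => ⟨⟨x.1, (List.mem_filter.1 (List.mem_toFinset.1 x.2)).1⟩,
        (h _).1 (List.mem_filter.1 (List.mem_toFinset.1 x.2)).2⟩,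
      fun v => rfl, fun x => rfl⟩
  rw [Nat.card_congr e, Nat.card_eq_fintype_card, Fintype.card_coe,
    List.toFinset_card_of_nodup (hX.filter _)]

/-- the list of a tuple -/
def L {X : List ℕ} {c : ℕ} (d : Fin c → {x // x ∈ X}) : List ℕ := List.ofFn fun i => (d i).1

theorem mem_tup (X : List ℕ) : ∀ (c : ℕ) (D : List ℕ),
    D ∈ tup c X ↔ ∃ d : Fin c → {x // x ∈ X}, D = L d := by
  intro c
  induction c with
  | zero =>
    intro D
    show D ∈ ([[]] : List (List ℕ)) ↔ _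
    rw [List.mem_singleton]
    constructor
    · rintro rfl
      exact ⟨Fin.elim0, by simp [L]⟩
    · rintro ⟨d, rfl⟩
      simp [L]
  | succ c ih =>
    intro D
    show D ∈ (X.flatMap fun x => (tup c X).map fun t => x :: t) ↔ _
    rw [List.mem_flatMap]
    constructor
    · rintro ⟨x, hx, h⟩
      obtain ⟨t, ht, rfl⟩ := List.mem_map.1 h
      obtain ⟨d, rfl⟩ := (ih t).1 ht
      refine ⟨Fin.cons ⟨x, hx⟩ d, ?_⟩
      unfold L
      rw [List.ofFn_succ]
      simp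
    · rintro ⟨d, rfl⟩
      refine ⟨(d 0).1, (d 0).2, List.mem_map.2 ⟨L fun i => d i.succ, (ih _).2 ⟨_, rfl⟩, ?_⟩⟩
      unfold L
      rw [List.ofFn_succ]

theorem L_length {X : List ℕ} {c : ℕ} (d : Fin c → {x // x ∈ X}) : (L d).length = c := by
  unfold L; simp

theorem L_getD {X : List ℕ} {c : ℕ} (d : Fin c → {x // x ∈ X}) (i : Fin c) :
    (L d).getD i.1 0 = (d i).1 := by
  unfold L
  rw [List.getD_eq_getElem _ _ (by simp)]
  simp

variable {s : Inst} {X Y Z : List ℕ} {c : ℕ} {d : Fin c → {x // x ∈ X}}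
  {d' : Fin c → {x // x ∈ Y}} {d0 : Fin c → {x // x ∈ Z}}

theorem ty_eq' {α β : Type} {c : ℕ} {E : α → α → Prop} {F : β → β → Prop} {D : Fin c → α}
    {D' : Fin c → β} {v : α} {w : β} (h : ty E D v = ty F D' w) (i : Fin c) :
    (v = D i ↔ w = D' i) ∧ (E v (D i) ↔ F w (D' i)) := by
  have h1 := congrFun h i
  exact ⟨iff_of_eq (congrArg Prod.fst h1), iff_of_eq (congrArg Prod.snd h1)⟩

theorem aty_iff (v : {x // x ∈ X}) (w : {x // x ∈ Y}) :
    aty s (L d) (L d') v.1 w.1 = true ↔ ty (AX s X) d v = ty (AX s Y) d' w := by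
  unfold aty
  rw [L_length, List.all_eq_true]
  constructor
  · intro h
    funext i
    have h1 := h i.1 (List.mem_range.2 i.2)
    rw [L_getD, L_getD, Bool.and_eq_true] at h1
    obtain ⟨h1, h2⟩ := h1
    rw [beq_iff_eq, Bool.eq_iff_iff, beq_iff_eq, beq_iff_eq] at h1
    rw [beq_iff_eq, Bool.eq_iff_iff] at h2
    refine Prod.ext (propext ?_) (propext h2)
    exact (Subtype.ext_iff.trans h1).trans Subtype.ext_iff.symm
  · intro h i hi
    have h1 := ty_eq' h ⟨i, List.mem_range.1 hi⟩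
    have e1 := L_getD d ⟨i, List.mem_range.1 hi⟩
    have e2 := L_getD d' ⟨i, List.mem_range.1 hi⟩
    simp only at e1 e2
    rw [e1, e2, Bool.and_eq_true]
    constructor
    · rw [beq_iff_eq, Bool.eq_iff_iff, beq_iff_eq, beq_iff_eq]
      exact (Subtype.ext_iff.symm.trans h1.1).trans Subtype.ext_iff
    · rw [beq_iff_eq, Bool.eq_iff_iff]
      exact h1.2

theorem aec_iff (v w : {x // x ∈ X}) :
    aec s (L d) v.1 w.1 = true ↔ eD (AX s X) d v w := by
  unfold aec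
  rw [Bool.and_eq_true, aty_iff]
  rfl

theorem or_edge (v w : {x // x ∈ X}) :
    ((v.1 == w.1) || aec s (L d) v.1 w.1) = true ↔ (v = w ∨ eD (AX s X) d v w) := by
  rw [Bool.or_eq_true, aec_iff, beq_iff_eq, Subtype.ext_iff]

theorem aco_iff (v w : {x // x ∈ X}) :
    aco s X (L d) v.1 w.1 = true ↔ co (eD (AX s X) d) v w := by
  unfold aco co
  refine any_sub fun x => any_sub fun y => ?_
  rw [Bool.and_eq_true, Bool.and_eq_true, or_edge, or_edge, or_edge]

theorem amd_iff : amd s X (L d) = true ↔ Md (AX s X) d := by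
  unfold amd Md
  refine all_sub fun v => all_sub fun w => all_sub fun z => ?_
  rw [Bool.or_eq_true, Bool.or_eq_true, Bool.or_eq_true, Bool.not_eq_true', Bool.not_eq_true',
    ← Bool.not_eq_true, ← Bool.not_eq_true, aec_iff, aco_iff]
  show (¬ _ ∨ (_ ∨ (¬ AX s X z v ∨ AX s X z w))) ↔ _
  tauto

theorem adm_iff : adm s X (L d) = true ↔ Dm (AX s X) d := by
  unfold adm Dm
  refine all_sub fun v => ?_
  rw [L_length, List.any_eq_true]
  constructor
  · rintro ⟨i, hi, h⟩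
    have e1 := L_getD d ⟨i, List.mem_range.1 hi⟩
    simp only at e1
    rw [e1, Bool.or_eq_true, beq_iff_eq] at h
    exact ⟨⟨i, List.mem_range.1 hi⟩, h.imp_left Subtype.ext⟩
  · rintro ⟨i, h⟩
    refine ⟨i.1, List.mem_range.2 i.2, ?_⟩
    rw [L_getD, Bool.or_eq_true, beq_iff_eq]
    exact h.imp_left (congrArg Subtype.val)

theorem adg_eq (hX : X.Nodup) (v : {x // x ∈ X}) (u : {x // x ∈ Z}) :
    adg s X (L d) v.1 (L d0) u.1 = dg (AX s X) d v (ty (AX s Z) d0 u) := by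
  unfold adg dg
  refine cnt_sub hX fun x => ?_
  rw [Bool.and_eq_true, Bool.and_eq_true, Bool.not_eq_true', ← Bool.not_eq_true, aty_iff, aty_iff]
  rfl

theorem dg_zero (v : {x // x ∈ X}) (t : Fin c → Prop × Prop) (ht : ∀ x, ty (AX s X) d x ≠ t) :
    dg (AX s X) d v t = 0 := by
  unfold dg
  have : IsEmpty {x // AX s X v x ∧ ty (AX s X) d v ≠ ty (AX s X) d x ∧ ty (AX s X) d x = t} :=
    ⟨fun x => ht _ x.2.2.2⟩
  exact Nat.card_of_isEmpty

theorem alb_iff (hX : X.Nodup) (hY : Y.Nodup) (v : {x // x ∈ X}) (w : {x // x ∈ Y}) :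
    alb s X (L d) v.1 Y (L d') w.1 = true ↔ lb (AX s X) d v = lb (AX s Y) d' w := by
  unfold alb lb
  rw [Bool.and_eq_true, Bool.and_eq_true, aty_iff]
  rw [all_sub (X := X) (P := fun u => dg (AX s X) d v (ty (AX s X) d u) =
      dg (AX s Y) d' w (ty (AX s X) d u)) (fun u => by rw [beq_iff_eq, adg_eq hX, adg_eq hY]),
    all_sub (X := Y) (P := fun u => dg (AX s X) d v (ty (AX s Y) d' u) =
      dg (AX s Y) d' w (ty (AX s Y) d' u)) (fun u => by rw [beq_iff_eq, adg_eq hX, adg_eq hY])]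
  constructor
  · rintro ⟨h1, h2, h3⟩
    refine Prod.ext h1 (funext fun t => ?_)
    by_cases g1 : ∃ x, ty (AX s X) d x = t
    · obtain ⟨x, rfl⟩ := g1
      exact h2 x
    by_cases g2 : ∃ x, ty (AX s Y) d' x = t
    · obtain ⟨x, rfl⟩ := g2
      exact h3 x
    push Not at g1 g2
    show dg _ _ _ _ = dg _ _ _ _
    rw [dg_zero v t g1, dg_zero w t g2]
  · intro h
    have h1 := congrArg Prod.fst h
    have h2 := congrArg Prod.snd h
    exact ⟨h1, fun u => congrFun h2 _, fun u => congrFun h2 _⟩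

theorem aun_iso (v : {x // x ∈ X}) : IsoR (AX s (aun s X (L d) v.1))
    (fun x y : {x // co (eD (AX s X) d) v x} => AX s X x.1 y.1) := by
  refine ⟨⟨fun x => ⟨⟨x.1, (List.mem_filter.1 x.2).1⟩, ?_⟩, fun x => ⟨x.1.1, ?_⟩, fun x => rfl,
    fun x => rfl⟩, fun x y => Iff.rfl⟩
  · exact (aco_iff v ⟨x.1, (List.mem_filter.1 x.2).1⟩).1 (List.mem_filter.1 x.2).2
  · exact List.mem_filter.2 ⟨x.1.2, (aco_iff v x.1).2 x.2⟩

/-- the hypotheses on the connected graphs -/
structure CNR {α : Type} (k : ℕ) (E : α → α → Prop) : Prop where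
  G : IsG E
  P : NoP5 E
  K : KF E k fun _ => True
  C : ∀ x y, co E x y
  N : Nonempty α

theorem CNR.iso {α β : Type} {E : α → α → Prop} {F : β → β → Prop} {k : ℕ} (h : IsoR E F)
    (hE : CNR k E) : CNR k F := by
  obtain ⟨e, he⟩ := h.symm
  refine ⟨⟨fun {x y} h => ?_, fun {x} h => ?_⟩, fun a b c d f h => ?_, ?_, fun x y => ?_, ?_⟩
  · rw [he] at h ⊢
    exact hE.G.symm h
  · rw [he] at h
    exact hE.G.irr h
  · unfold P5 at h
    simp only [he] at h
    exact hE.P _ _ _ _ _ h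
  · exact hE.K.comap e (fun _ _ => trivial) fun x y _ _ h => (he x y).1 h
  · obtain ⟨a, b, h1, h2, h3⟩ := hE.C (e x) (e y)
    obtain ⟨a, rfl⟩ := e.surjective a
    obtain ⟨b, rfl⟩ := e.surjective b
    have key : ∀ {a b : β}, (e a = e b ∨ E (e a) (e b)) → (a = b ∨ F a b) := by
      rintro a b (h | h)
      · exact Or.inl (e.injective h)
      · exact Or.inr ((he a b).2 h)
    exact ⟨a, b, key h1, key h2, key h3⟩
  · obtain ⟨x⟩ := hE.N
    exact ⟨e.symm x⟩

theorem unit_cnr {α : Type} {E : α → α → Prop} {D : Fin c → α} {k : ℕ} (hG : IsG E)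
    (hP : NoP5 E) (v : α) (hk : KF E k fun w => co (eD E D) v w) :
    CNR k (fun x y : {x // co (eD E D) v x} => E x.1 y.1) := by
  have hG' : IsG (eD E D) := eD.isG hG
  have hP' : NoP5 (eD E D) := eD.noP5 hP
  refine ⟨⟨fun h => hG.symm h, fun h => hG.irr h⟩, fun a b c d e h => hP _ _ _ _ _ h,
    hk.comap Subtype.val (fun x _ => x.2) fun _ _ _ _ h => h, fun x y => ?_, ⟨v, co.refl v⟩⟩
  obtain ⟨a, b, g1, g2, g3⟩ := (x.2.symm hG').trans hP' y.2
  have key : ∀ (a : {w // co (eD E D) v w}) (b : α), (a.1 = b ∨ eD E D a.1 b) →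
      ∃ hb : co (eD E D) v b, a = ⟨b, hb⟩ ∨ E a.1 b := by
    rintro a b (h | h)
    · subst h; exact ⟨a.2, Or.inl rfl⟩
    · exact ⟨a.2.step hP' h, Or.inr h.1⟩
  obtain ⟨ha, g1⟩ := key x a g1
  obtain ⟨hb, g2⟩ := key ⟨a, ha⟩ b g2
  obtain ⟨hy, g3⟩ := key ⟨b, hb⟩ y.1 g3
  exact ⟨⟨a, ha⟩, ⟨b, hb⟩, g1, g2, g3⟩

/-- the algorithm is correct on connected graphs -/
def Ex (k : ℕ) (R : J → Bool) : Prop := ∀ (s : Inst) (X Y : List ℕ), X.Nodup → Y.Nodup →
  CNR k (AX s X) → CNR k (AX s Y) → (R (s, X, Y) = true ↔ IsoR (AX s X) (AX s Y))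

/-- the hypotheses on a graph with a tuple -/
structure HU (s : Inst) (X : List ℕ) {c : ℕ} (d : Fin c → {x // x ∈ X}) (k : ℕ) : Prop where
  N : X.Nodup
  G : IsG (AX s X)
  P : NoP5 (AX s X)
  U : ∀ v, KF (AX s X) k fun w => co (eD (AX s X) d) v w

theorem asim_iff {k : ℕ} {R : J → Bool} (hR : Ex k R) (hX : HU s X d k) (hY : HU s Y d' k)
    (v : {x // x ∈ X}) (w : {x // x ∈ Y}) :
    asim R s X (L d) v.1 Y (L d') w.1 = true ↔ SIM (AX s X) d v (AX s Y) d' w := by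
  unfold asim SIM
  rw [Bool.and_eq_true, alb_iff hX.N hY.N]
  refine and_congr_right fun _ => ?_
  have h1 := aun_iso (s := s) (d := d) v
  have h2 := aun_iso (s := s) (d := d') w
  rw [hR s (aun s X (L d) v.1) (aun s Y (L d') w.1) (hX.N.filter _) (hY.N.filter _)
    ((unit_cnr hX.G hX.P v (hX.U v)).iso h1.symm) ((unit_cnr hY.G hY.P w (hY.U w)).iso h2.symm)]
  exact ⟨fun h => (h1.symm.trans h).trans h2, fun h => (h1.trans h).trans h2.symm⟩

theorem acnt_iff {k : ℕ} {R : J → Bool} (hR : Ex k R) (hX : HU s X d k) (hY : HU s Y d' k) :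
    acnt R s X (L d) Y (L d') = true ↔ Cnt (AX s X) d (AX s Y) d' := by
  unfold acnt Cnt
  rw [Bool.and_eq_true]
  refine and_congr (all_sub fun v => ?_) (all_sub fun v => ?_)
  · rw [beq_iff_eq, cnt_sub hX.N (fun x => asim_iff hR hX hX v x),
      cnt_sub hY.N (fun x => asim_iff hR hX hY v x)]
  · rw [beq_iff_eq, cnt_sub hX.N (fun x => asim_iff hR hY hX v x),
      cnt_sub hY.N (fun x => asim_iff hR hY hY v x)]

theorem astep_iff (b : Bool) (c : ℕ) (R : J → Bool) (s : Inst) (X Y : List ℕ) :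
    astep b c R (s, X, Y) = true ↔
      ∃ (d : Fin c → {x // x ∈ X}) (d' : Fin c → {x // x ∈ Y}),
        (b = true ∨ (Dm (AX s X) d ∧ Dm (AX s Y) d')) ∧ (Md (AX s X) d ∧ Md (AX s Y) d') ∧
          acnt R s X (L d) Y (L d') = true := by
  unfold astep
  simp only [List.any_eq_true, mem_tup]
  constructor
  · rintro ⟨_, ⟨d, rfl⟩, _, ⟨d', rfl⟩, h⟩
    rw [Bool.and_eq_true, Bool.and_eq_true, Bool.and_eq_true, Bool.or_eq_true, Bool.and_eq_true,
      adm_iff, adm_iff, amd_iff, amd_iff] at h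
    exact ⟨d, d', h⟩
  · rintro ⟨d, d', h⟩
    refine ⟨_, ⟨d, rfl⟩, _, ⟨d', rfl⟩, ?_⟩
    rw [Bool.and_eq_true, Bool.and_eq_true, Bool.and_eq_true, Bool.or_eq_true, Bool.and_eq_true,
      adm_iff, adm_iff, amd_iff, amd_iff]
    exact h

theorem dm_units {α : Type} {E : α → α → Prop} {D : Fin c → α} {k : ℕ} (hG : IsG E)
    (hk : KF E (k + 1 + 1) fun _ => True) (hD : Dm E D) (v : α) :
    KF E (k + 1) fun w => co (eD E D) v w := by
  obtain ⟨i, hi⟩ := hD v
  rcases hi with hi | hi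
  · have h1 : ∀ w, co (eD E D) v w → w = v := fun w hw =>
      ((ty_eq (co_ty hw) i).1.1 hi).trans hi.symm
    refine KF.one ?_
    rintro x hx y ⟨hy, hxy⟩
    rw [h1 x hx, h1 y hy] at hxy
    exact hG.irr hxy
  · exact (hk (D i) trivial).mono fun w hw => ⟨trivial, hG.symm ((ty_eq (co_ty hw) i).2.1 hi)⟩

theorem ex_step {k : ℕ} {R : J → Bool} (hR : Ex (k + 1) R) :
    ∃ c, Ex (k + 1 + 1) (astep false c R) := by
  obtain ⟨c, hc⟩ := good (k + 1)
  refine ⟨c, fun s X Y hX hY cX cY => ?_⟩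
  rw [astep_iff]
  constructor
  · rintro ⟨d, d', h1, ⟨h2, h3⟩, h4⟩
    rcases h1 with h1 | ⟨h1, h1'⟩
    · exact absurd h1 (by simp)
    · have hdX : HU s X d (k + 1) := ⟨hX, cX.G, cX.P, dm_units cX.G cX.K h1⟩
      have hdY : HU s Y d' (k + 1) := ⟨hY, cY.G, cY.P, dm_units cY.G cY.K h1'⟩
      exact step_sound cX.G cX.P cY.G cY.P h2 h3 ((acnt_iff hR hdX hdY).1 h4)
  · rintro ⟨e, he⟩
    have := cX.N
    obtain ⟨d, h1, h2⟩ := hc _ (AX s X) cX.G cX.P cX.K cX.C
    have h1' := h1.map e he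
    have h2' := h2.map e he
    have hdX : HU s X d (k + 1) := ⟨hX, cX.G, cX.P, dm_units cX.G cX.K h1⟩
    have hdY : HU s Y (fun i => e (d i)) (k + 1) := ⟨hY, cY.G, cY.P, dm_units cY.G cY.K h1'⟩
    exact ⟨d, fun i => e (d i), Or.inr ⟨h1, h1'⟩, ⟨h2, h2'⟩,
      (acnt_iff hR hdX hdY).2 (Cnt_map e he)⟩

theorem ex_all (k : ℕ) : ∃ cs, Ex (k + 1) (isoAlg cs) := by
  induction k with
  | zero =>
    refine ⟨[], fun s X Y _ _ cX cY => ⟨fun _ => ?_, fun _ => rfl⟩⟩
    have key : ∀ {α : Type} {E : α → α → Prop}, CNR 1 E → ∀ x y : α, x = y := by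
      intro α E h x y
      obtain ⟨a, b, h1, h2, h3⟩ := h.C x y
      have key : ∀ {a b : α}, (a = b ∨ E a b) → a = b := by
        rintro a b (h' | h')
        · exact h'
        · exact absurd ⟨trivial, h'⟩ (h.K a trivial b)
      exact (key h1).trans ((key h2).trans (key h3))
    obtain ⟨x⟩ := cX.N
    obtain ⟨y⟩ := cY.N
    refine ⟨⟨fun _ => y, fun _ => x, fun a => key cX _ _, fun a => key cY _ _⟩, fun a b => ?_⟩
    rw [key cX a b]
    exact ⟨fun h => absurd h cX.G.irr, fun h => absurd h cY.G.irr⟩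
  | succ k ih =>
    obtain ⟨cs, hcs⟩ := ih
    obtain ⟨c, hc⟩ := ex_step hcs
    exact ⟨c :: cs, hc⟩

theorem fin_iff {k : ℕ} {cs : List ℕ} (hR : Ex k (isoAlg cs)) (hX : X.Nodup) (hY : Y.Nodup)
    (gX : IsG (AX s X)) (gY : IsG (AX s Y)) (pX : NoP5 (AX s X)) (pY : NoP5 (AX s Y))
    (kX : KF (AX s X) k fun _ => True) (kY : KF (AX s Y) k fun _ => True) :
    finAlg cs (s, X, Y) = true ↔ IsoR (AX s X) (AX s Y) := by
  unfold finAlg
  rw [astep_iff]
  have hm : ∀ {α : Type} {E : α → α → Prop} (_ : IsG E) (D : Fin 0 → α), Md E D := by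
    intro α E hG D v w z _ hvz hzv
    have h1 : eD E D v z := ⟨hG.symm hzv, funext fun i => i.elim0⟩
    exact absurd (co.of_adj h1) hvz
  have hU : ∀ (X : List ℕ) (d : Fin 0 → {x // x ∈ X}), X.Nodup → IsG (AX s X) → NoP5 (AX s X) →
      KF (AX s X) k (fun _ => True) → HU s X d k := fun X d h1 h2 h3 h4 =>
    ⟨h1, h2, h3, fun v => h4.mono fun _ _ => trivial⟩
  constructor
  · rintro ⟨d, d', -, -, h⟩
    exact step_sound gX pX gY pY (hm gX d) (hm gY d')
      ((acnt_iff hR (hU X d hX gX pX kX) (hU Y d' hY gY pY kY)).1 h)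
  · rintro ⟨e, he⟩
    exact ⟨Fin.elim0, fun i => e ((Fin.elim0 : Fin 0 → {x // x ∈ X}) i), Or.inl rfl,
      ⟨hm gX _, hm gY _⟩,
      (acnt_iff hR (hU X _ hX gX pX kX) (hU Y _ hY gY pY kY)).2 (Cnt_map e he)⟩

/-! ### the two graphs -/

theorem iso_isG {α β : Type} {E : α → α → Prop} {F : β → β → Prop} (h : IsoR E F) (hE : IsG E) :
    IsG F := by
  obtain ⟨e, he⟩ := h.symm
  refine ⟨fun {x y} h => ?_, fun {x} h => ?_⟩
  · rw [he] at h ⊢
    exact hE.symm h
  · rw [he] at h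
    exact hE.irr h

theorem iso_noP5 {α β : Type} {E : α → α → Prop} {F : β → β → Prop} (h : IsoR E F)
    (hE : NoP5 E) : NoP5 F := by
  obtain ⟨e, he⟩ := h.symm
  intro a b c d f h
  unfold P5 at h
  simp only [he] at h
  exact hE _ _ _ _ _ h

theorem iso_KF {α β : Type} {E : α → α → Prop} {F : β → β → Prop} {k : ℕ} (h : IsoR E F)
    (hE : KF E k fun _ => True) : KF F k fun _ => True := by
  obtain ⟨e, he⟩ := h.symm
  exact hE.comap e (fun _ _ => trivial) fun x y _ _ h => (he x y).1 h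

section top

variable {n m : ℕ} (G : SimpleGraph (Fin n)) (H : SimpleGraph (Fin m))

theorem side1 : IsoR (AX (inst G H) (List.range n)) G.Adj := by
  refine ⟨⟨fun x => ⟨x.1, List.mem_range.1 x.2⟩, fun x => ⟨x.1, List.mem_range.2 x.2⟩,
    fun x => rfl, fun x => rfl⟩, fun x y => ?_⟩
  have hx := List.mem_range.1 x.2
  have hy := List.mem_range.1 y.2
  unfold AX
  rw [adj_iff]
  constructor
  · rintro (⟨_, _, h⟩ | ⟨h, -⟩)
    · exact h
    · omega
  · intro h
    exact Or.inl ⟨hx, hy, h⟩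

theorem mem_side2 {n m x : ℕ} (h : x ∈ (List.range m).map fun i => i + n) : n ≤ x ∧ x - n < m := by
  obtain ⟨i, hi, rfl⟩ := List.mem_map.1 h
  have := List.mem_range.1 hi
  omega

theorem side2 : IsoR (AX (inst G H) ((List.range m).map fun i => i + n)) H.Adj := by
  refine ⟨⟨fun x => ⟨x.1 - n, (mem_side2 x.2).2⟩, fun x => ⟨x.1 + n, List.mem_map.2
    ⟨x.1, List.mem_range.2 x.2, rfl⟩⟩, fun x => ?_, fun x => ?_⟩, fun x y => ?_⟩
  · have := mem_side2 x.2
    refine Subtype.ext ?_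
    show x.1 - n + n = x.1
    omega
  · refine Fin.ext ?_
    show x.1 + n - n = x.1
    omega
  · have hx := mem_side2 x.2
    have hy := mem_side2 y.2
    unfold AX
    rw [adj_iff]
    constructor
    · rintro (⟨h1, _, _⟩ | ⟨_, _, _, _, h⟩)
      · omega
      · exact h
    · intro h
      exact Or.inr ⟨hx.1, hy.1, hx.2, hy.2, h⟩

theorem sides_inst : sides (inst G H) =
    (inst G H, List.range n, (List.range m).map fun i => i + n) := by
  unfold sides
  have h1 : (inst G H).1 = n := by rw [inst_eq]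
  have h2 : (inst G H).2.1 = m := by rw [inst_eq]
  rw [h1, h2]

end top

/-- Isomorphism of graphs without induced path on five vertices and without clique on `k + 2`
vertices can be decided in polynomial time. -/
theorem gi_kf (k : ℕ) : ∃ f : List Bool → Bool, Pool.Agent.H.MP_5be563_lc.PT.Poly f ∧
    ∀ (n m : ℕ) (G : SimpleGraph (Fin n)) (H : SimpleGraph (Fin m)), NoP5 G.Adj → NoP5 H.Adj →
      KF G.Adj (k + 1) (fun _ => True) → KF H.Adj (k + 1) (fun _ => True) →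
      (f (code G ++ code H) = true ↔ Nonempty (G ≃g H)) := by
  obtain ⟨cs, hcs⟩ := ex_all k
  refine ⟨fun w => finAlg cs (sides (parse w)), (p_finAlg cs).comp (p_sides (p_parse
    Pool.Agent.H.MP_5be563_lc.PT.Poly.id)), fun n m G H pG pH kG kH => ?_⟩
  show finAlg cs (sides (inst G H)) = true ↔ _
  have i1 := side1 G H
  have i2 := side2 G H
  have gG : IsG G.Adj := ⟨fun h => SimpleGraph.Adj.symm h, fun {x} h => h.ne rfl⟩
  have gH : IsG H.Adj := ⟨fun h => SimpleGraph.Adj.symm h, fun {x} h => h.ne rfl⟩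
  rw [sides_inst, fin_iff hcs List.nodup_range
    ((List.nodup_map_iff (fun a b h => by simpa using h)).2 List.nodup_range)
    (iso_isG i1.symm gG) (iso_isG i2.symm gH) (iso_noP5 i1.symm pG) (iso_noP5 i2.symm pH)
    (iso_KF i1.symm kG) (iso_KF i2.symm kH)]
  constructor
  · intro h
    obtain ⟨e, he⟩ := (i1.symm.trans h).trans i2
    exact ⟨⟨e, fun {a b} => (he a b).symm⟩⟩
  · rintro ⟨f⟩
    have h : IsoR G.Adj H.Adj := ⟨f.toEquiv, fun x y => f.map_rel_iff.symm⟩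
    exact (i1.trans h).trans i2.symm

/-- no clique on four vertices -/
theorem kf_of {n : ℕ} {G : SimpleGraph (Fin n)}
    (h : ¬ (⊤ : SimpleGraph (Fin 4)).IsIndContained G) : KF G.Adj 3 fun _ => True := by
  rintro a - b ⟨-, hab⟩ c ⟨⟨-, hac⟩, hbc⟩ d ⟨⟨⟨-, had⟩, hbd⟩, hcd⟩
  apply h
  refine ⟨⟨⟨![a, b, c, d], ?_⟩, ?_⟩⟩
  · have nab := hab.ne
    have nac := hac.ne
    have nad := had.ne
    have nbc := hbc.ne
    have nbd := hbd.ne
    have ncd := hcd.ne
    intro i j h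
    fin_cases i <;> fin_cases j <;> first
      | rfl
      | (exfalso; first
        | exact nab h
        | exact nac h
        | exact nad h
        | exact nbc h
        | exact nbd h
        | exact ncd h
        | exact nab h.symm
        | exact nac h.symm
        | exact nad h.symm
        | exact nbc h.symm
        | exact nbd h.symm
        | exact ncd h.symm)
  · intro i j
    fin_cases i <;> fin_cases j <;> simp [hab, hac, had, hbc, hbd, hcd, hab.symm, hac.symm,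
      had.symm, hbc.symm, hbd.symm, hcd.symm]

/-- GRAPH ISOMORPHISM on `(K₄, P₅)`-free graphs is in P. -/
theorem classB_inP : GIinP ClassB := by
  obtain ⟨f, hf, h⟩ := gi_kf 2
  exact ⟨f, Pool.Agent.H.MP_5be563_lc.PT.poly_iff_tm2_raw_bool.1 hf,
    fun n m G H hG hH => h n m G H (p5_of hG.2) (p5_of hH.2) (kf_of hG.1) (kf_of hH.1)⟩

end Pool.Agent.H.MP_6f30b3_lc.kt
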