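import Pool.Agent.H.MP_6f30b3_lc.kt.Ram

/-!
MP_6f30b3_lc: a bounded number of vertices such that the components of the graph of edges between
vertices with the same adjacencies to these vertices are modules.
-/

namespace Pool.Agent.H.MP_6f30b3_lc.kt

open Pool.Agent.H.MP_6f30b3_lc.h34

variable {α : Type*} {E : α → α → Prop} {A A' : Finset α}

/-- same adjacencies to the vertices of `A` -/
def sty (E : α → α → Prop) (A : Finset α) (v w : α) : Prop :=
  ∀ a ∈ A, (v = a ↔ w = a) ∧ (E v a ↔ E w a)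

/-- edges between vertices of the same type -/
def ec (E : α → α → Prop) (A : Finset α) (x y : α) : Prop := E x y ∧ sty E A x y

/-- vertices of units which are not modules -/
def Bad (E : α → α → Prop) (A : Finset α) (p : α) : Prop :=
  ∃ q z, ec E A p q ∧ ¬ co (ec E A) p z ∧ E z p ∧ ¬ E z q

theorem sty.refl (v : α) : sty E A v v := fun _ _ => ⟨Iff.rfl, Iff.rfl⟩

theorem sty.symm {v w : α} (h : sty E A v w) : sty E A w v :=
  fun a ha => ⟨(h a ha).1.symm, (h a ha).2.symm⟩

theorem sty.trans {u v w : α} (h : sty E A u v) (h' : sty E A v w) : sty E A u w :=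
  fun a ha => ⟨(h a ha).1.trans (h' a ha).1, (h a ha).2.trans (h' a ha).2⟩

theorem sty.mono (hA : A ⊆ A') {v w : α} (h : sty E A' v w) : sty E A v w :=
  fun a ha => h a (hA ha)

theorem ec.isG (hG : IsG E) : IsG (ec E A) :=
  ⟨fun h => ⟨hG.symm h.1, h.2.symm⟩, fun h => hG.irr h.1⟩

theorem ec.noP5 (hP : NoP5 E) : NoP5 (ec E A) := by
  intro a b c d e ⟨h1, h2, h3, h4, h5, h6, h7, h8, h9, h10⟩
  have s1 := h1.2.trans h2.2
  have s2 := s1.trans h3.2
  have s3 := s2.trans h4.2
  have s4 := h2.2.trans h3.2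
  have s5 := s4.trans h4.2
  have s6 := h3.2.trans h4.2
  exact hP a b c d e ⟨h1.1, h2.1, h3.1, h4.1, fun h => h5 ⟨h, s1⟩, fun h => h6 ⟨h, s2⟩,
    fun h => h7 ⟨h, s3⟩, fun h => h8 ⟨h, s4⟩, fun h => h9 ⟨h, s5⟩, fun h => h10 ⟨h, s6⟩⟩

theorem co_lift {R : α → α → Prop} {T : α → α → Prop} (hr : ∀ x, T x x)
    (ht : ∀ x y z, T x y → T y z → T x z) (h : ∀ x y, R x y → T x y) {v w : α}
    (hvw : co R v w) : T v w := by
  obtain ⟨x, y, h1, h2, h3⟩ := hvw
  have key : ∀ {a b : α}, (a = b ∨ R a b) → T a b := by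
    rintro a b (rfl | h')
    · exact hr a
    · exact h _ _ h'
  exact ht _ _ _ (key h1) (ht _ _ _ (key h2) (key h3))

theorem co_sty {v w : α} (h : co (ec E A) v w) : sty E A v w :=
  co_lift (fun x => sty.refl x) (fun _ _ _ h h' => h.trans h') (fun _ _ h => h.2) h

theorem co_mono {R S : α → α → Prop} (h : ∀ x y, R x y → S x y) {v w : α} (hvw : co R v w) :
    co S v w := by
  obtain ⟨x, y, h1, h2, h3⟩ := hvw
  exact ⟨x, y, h1.imp_right (h _ _), h2.imp_right (h _ _), h3.imp_right (h _ _)⟩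

theorem ec.mono (hA : A ⊆ A') {v w : α} (h : ec E A' v w) : ec E A v w := ⟨h.1, h.2.mono hA⟩

/-- the main case distinction -/
theorem pairs (hG : IsG E) (hP : NoP5 E) {p q z p' q' z' : α} (h1 : ec E A p q)
    (h2 : ¬ co (ec E A) p z) (h3 : E z p) (h4 : ¬ E z q) (h1' : ec E A p' q')
    (h3' : E z' p') (h4' : ¬ E z' q') (hp : sty E A p p')
    (hz : sty E A z z') (hpp : ¬ co (ec E A) p p') (hzz : ¬ E z z') :
    E z p' ∧ E z q' ∧ E z' p ∧ E z' q := by
  have hG' : IsG (ec E A) := ec.isG hG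
  have hP' : NoP5 (ec E A) := ec.noP5 hP
  have sep : ∀ x y, co (ec E A) p x → co (ec E A) p' y → ¬ E x y := by
    intro x y hx hy hxy
    have : ec E A x y := ⟨hxy, ((co_sty hx).symm.trans hp).trans (co_sty hy)⟩
    exact hpp ((hx.step hP' this).trans hP' (hy.symm hG'))
  have cq : co (ec E A) p q := co.of_adj h1
  have cq' : co (ec E A) p' q' := co.of_adj h1'
  have spp := sep p p' (co.refl p) (co.refl p')
  have spq := sep p q' (co.refl p) cq'
  have sqp := sep q p' cq (co.refl p')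
  have sqq := sep q q' cq cq'
  have H1 : E z p' ↔ E z q' := by
    constructor
    · intro h
      by_contra h'
      exact hP q p z p' q' ⟨hG.symm h1.1, hG.symm h3, h, h1'.1, fun g => h4 (hG.symm g), sqp, sqq,
        spp, spq, h'⟩
    · intro h
      by_contra h'
      exact hP q p z q' p' ⟨hG.symm h1.1, hG.symm h3, h, hG.symm h1'.1, fun g => h4 (hG.symm g),
        sqq, sqp, spq, spp, h'⟩
  have H2 : E z' p ↔ E z' q := by
    constructor
    · intro h
      by_contra h'
      exact hP q' p' z' p q ⟨hG.symm h1'.1, hG.symm h3', h, h1.1, fun g => h4' (hG.symm g),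
        fun g => spq (hG.symm g), fun g => sqq (hG.symm g), fun g => spp (hG.symm g),
        fun g => sqp (hG.symm g), h'⟩
    · intro h
      by_contra h'
      exact hP q' p' z' q p ⟨hG.symm h1'.1, hG.symm h3', h, hG.symm h1.1,
        fun g => h4' (hG.symm g), fun g => sqq (hG.symm g), fun g => spq (hG.symm g),
        fun g => sqp (hG.symm g), fun g => spp (hG.symm g), h'⟩
  by_cases c1 : E z p' <;> by_cases c2 : E z' p
  · exact ⟨c1, H1.1 c1, c2, H2.1 c2⟩
  · exfalso
    exact hP z' p' z p q ⟨h3', hG.symm c1, h3, h1.1, fun g => hzz (hG.symm g), c2,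
      fun g => c2 (H2.2 g), fun g => spp (hG.symm g), fun g => sqp (hG.symm g), h4⟩
  · exfalso
    exact hP z p z' p' q' ⟨h3, hG.symm c2, h3', h1'.1, hzz, c1, fun g => c1 (H1.2 g), spp, spq,
      h4'⟩
  · exfalso
    have hne : ¬ sty E A p z := fun h => h2 (co.of_adj ⟨hG.symm h3, h⟩)
    unfold sty at hne
    push Not at hne
    obtain ⟨a, ha, hpa⟩ := hne
    have e1 := hp a ha
    have e2 := hz a ha
    have e3 := h1.2 a ha
    by_cases g1 : p = a
    · have g2 : p' = a := e1.1.1 g1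
      rw [← g2] at g1
      subst g1
      exact hpp (co.refl _)
    by_cases g2 : z = a
    · have g3 : z' = a := e2.1.1 g2
      rw [← g3] at g2
      subst g2
      exact c1 h3'
    by_cases g3 : E p a
    · have g4 : ¬ E z a := by
        intro g4
        rcases hpa ⟨fun h => absurd h g1, fun h => absurd h g2⟩ with h | h
        · exact h.2 g4
        · exact h.1 g3
      exact hP z p a p' z' ⟨h3, g3, hG.symm (e1.2.1 g3), hG.symm h3', g4, c1, hzz, spp,
        fun g => c2 (hG.symm g), fun g => g4 (e2.2.2 (hG.symm g))⟩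
    · have g4 : E z a := by
        by_contra g4
        rcases hpa ⟨fun h => absurd h g1, fun h => absurd h g2⟩ with h | h
        · exact g3 h.1
        · exact g4 h.2
      exact hP q p z a z' ⟨hG.symm h1.1, hG.symm h3, g4, hG.symm (e2.2.1 g4),
        fun g => h4 (hG.symm g), fun g => g3 (e3.2.2 g), fun g => c2 (H2.2 (hG.symm g)), g3,
        fun g => c2 (hG.symm g), hzz⟩

/-- few units are not modules -/
theorem badhit [Finite α] (hG : IsG E) (hP : NoP5 E) {k : ℕ} (hk : KF E k fun _ => True)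
    (A : Finset α) : ∃ L : Finset α, L.card ≤ 2 ^ (k + 2) * (4 ^ A.card * 4 ^ A.card) ∧
      (∀ p ∈ L, Bad E A p) ∧ ∀ p, Bad E A p → ∃ p' ∈ L, co (ec E A) p' p := by
  classical
  have := Fintype.ofFinite α
  have hG' : IsG (ec E A) := ec.isG hG
  have hP' : NoP5 (ec E A) := ec.noP5 hP
  let Cand : Finset α → Prop := fun L => (∀ p ∈ L, Bad E A p) ∧
    ∀ p ∈ L, ∀ p' ∈ L, p ≠ p' → ¬ co (ec E A) p p'
  obtain ⟨L, hL, hmax⟩ := Finset.exists_max_image (Finset.univ.filter Cand) Finset.card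
    ⟨∅, Finset.mem_filter.2 ⟨Finset.mem_univ _, by simp, by simp⟩⟩
  have hL' : Cand L := (Finset.mem_filter.1 hL).2
  refine ⟨L, ?_, hL'.1, ?_⟩
  · have hw : ∀ p, ∃ q z, p ∈ L → ec E A p q ∧ ¬ co (ec E A) p z ∧ E z p ∧ ¬ E z q := by
      intro p
      by_cases hp : p ∈ L
      · obtain ⟨q, z, h⟩ := hL'.1 p hp
        exact ⟨q, z, fun _ => h⟩
      · exact ⟨p, p, fun h => absurd h hp⟩
    choose q z hqz using hw
    let f : α → (↥A → Prop × Prop) × (↥A → Prop × Prop) := fun p =>
      (fun a => (p = a.1, E p a.1), fun a => (z p = a.1, E (z p) a.1))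
    have hf : ∀ p p', f p = f p' → sty E A p p' ∧ sty E A (z p) (z p') := by
      intro p p' h
      have h1 := congrArg Prod.fst h
      have h2 := congrArg Prod.snd h
      constructor
      · intro a ha
        have h3 := congrFun h1 ⟨a, ha⟩
        exact ⟨iff_of_eq (congrArg Prod.fst h3), iff_of_eq (congrArg Prod.snd h3)⟩
      · intro a ha
        have h3 := congrFun h2 ⟨a, ha⟩
        exact ⟨iff_of_eq (congrArg Prod.fst h3), iff_of_eq (congrArg Prod.snd h3)⟩
    refine (Finset.card_le_mul_card_image (f := f) L (2 ^ (k + 2)) ?_).trans ?_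
    · intro t _
      set F := L.filter fun x => f x = t with hF
      have hFL : ∀ x ∈ F, x ∈ L := fun x hx => (Finset.mem_filter.1 hx).1
      have hFt : ∀ x ∈ F, ∀ y ∈ F, sty E A x y ∧ sty E A (z x) (z y) := fun x hx y hy =>
        hf x y ((Finset.mem_filter.1 hx).2.trans (Finset.mem_filter.1 hy).2.symm)
      have hpair : ∀ i ∈ F, ∀ j ∈ F, i ≠ j → ¬ E (z i) (z j) →
          E (z i) j ∧ E (z i) (q j) ∧ E (z j) i ∧ E (z j) (q i) := by
        intro i hi j hj hij hn
        obtain ⟨a1, a2, a3, a4⟩ := hqz i (hFL i hi)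
        obtain ⟨b1, b2, b3, b4⟩ := hqz j (hFL j hj)
        exact pairs hG hP a1 a2 a3 a4 b1 b3 b4 (hFt i hi j hj).1 (hFt i hi j hj).2
          (hL'.2 i (hFL i hi) j (hFL j hj) hij) hn
      have h1 := ram (fun i j => E (z i) (z j)) (fun i j => i ≠ j ∧ ¬ E (z i) (z j)) (k + 2) k 2
        rfl F (hk.comap z (fun _ _ => trivial) fun _ _ _ _ h => h) ?_
        (fun i _ j _ hij => by
          by_cases h : E (z i) (z j)
          · exact Or.inl h
          · exact Or.inr ⟨hij, h⟩)
      · omega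
      · intro i hi j hj l hl
        obtain ⟨⟨hl1, hl2⟩, hl3⟩ := hl
        obtain ⟨hj1, hj2⟩ := hj
        have sepq : ∀ x ∈ F, ∀ y ∈ F, x ≠ y → ¬ E (q x) (q y) := by
          intro x hx y hy hxy h
          obtain ⟨a1, -, -, -⟩ := hqz x (hFL x hx)
          obtain ⟨b1, -, -, -⟩ := hqz y (hFL y hy)
          have g : ec E A (q x) (q y) := ⟨h, (a1.2.symm.trans (hFt x hx y hy).1).trans b1.2⟩
          have g2 : co (ec E A) x (q y) := (co.of_adj a1).step hP' g
          exact hL'.2 x (hFL x hx) y (hFL y hy) hxy (g2.step hP' (hG'.symm b1))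
        obtain ⟨-, -, -, c1⟩ := hpair i hi j hj1 hj2.1 hj2.2
        obtain ⟨-, c2, -, -⟩ := hpair j hj1 l hl1 hl3.1 hl3.2
        obtain ⟨-, c3, -, -⟩ := hpair i hi l hl1 hl2.1 hl2.2
        obtain ⟨-, c4, -, -⟩ := hpair i hi j hj1 hj2.1 hj2.2
        exact hP (q i) (z j) (q l) (z i) (q j) ⟨hG.symm c1, c2, hG.symm c3, c4,
          sepq i hi l hl1 hl2.1, fun g => (hqz i (hFL i hi)).2.2.2 (hG.symm g),
          sepq i hi j hj1 hj2.1, fun g => hj2.2 (hG.symm g), (hqz j (hFL j hj1)).2.2.2,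
          fun g => sepq j hj1 l hl1 hl3.1 (hG.symm g)⟩
    · refine Nat.mul_le_mul_left _ ((Finset.card_le_univ _).trans (le_of_eq ?_))
      simp
  · intro p hp
    by_contra hcon
    push Not at hcon
    have hpL : p ∉ L := fun h => hcon p h (co.refl p)
    have h1 : Cand (insert p L) := by
      constructor
      · intro x hx
        rcases Finset.mem_insert.1 hx with rfl | hx
        · exact hp
        · exact hL'.1 x hx
      · intro x hx y hy hxy
        rcases Finset.mem_insert.1 hx with hx1 | hx1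
        · rcases Finset.mem_insert.1 hy with hy1 | hy1
          · exact absurd (hx1.trans hy1.symm) hxy
          · rw [hx1]
            exact fun h => hcon y hy1 (h.symm hG')
        · rcases Finset.mem_insert.1 hy with hy1 | hy1
          · rw [hy1]
            exact hcon x hx1
          · exact hL'.2 x hx1 y hy1 hxy
    have h2 := hmax _ (Finset.mem_filter.2 ⟨Finset.mem_univ _, h1⟩)
    rw [Finset.card_insert_of_notMem hpL] at h2
    omega

/-- a unit has a small dominating set -/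
theorem unit_dom [Finite α] (hG : IsG E) (hP : NoP5 E) {k : ℕ} (hk : KF E k fun _ => True)
    (A : Finset α) (p : α) : ∃ D : Finset α, D.card ≤ 1 + (2 ^ (k + k) + 2 ^ (k + k)) ∧
      (∀ d ∈ D, co (ec E A) p d) ∧ ∀ v, co (ec E A) p v → ∃ d ∈ D, v = d ∨ E v d := by
  classical
  have hG' : IsG (ec E A) := ec.isG hG
  have hP' : NoP5 (ec E A) := ec.noP5 hP
  have : Nonempty {w // co (ec E A) p w} := ⟨⟨p, co.refl p⟩⟩
  obtain ⟨L, h1, h2⟩ := dom (α := {w // co (ec E A) p w}) (E := fun x y => E x.1 y.1)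
    ⟨fun h => hG.symm h, fun h => hG.irr h⟩ (fun a b c d e h => hP _ _ _ _ _ h)
    (hk.comap Subtype.val (fun _ _ => trivial) fun _ _ _ _ h => h) (fun x y => by
      obtain ⟨a, b, g1, g2, g3⟩ := (x.2.symm hG').trans hP' y.2
      have key : ∀ (a : {w // co (ec E A) p w}) (b : α), (a.1 = b ∨ ec E A a.1 b) →
          ∃ hb : co (ec E A) p b, a = ⟨b, hb⟩ ∨ E a.1 b := by
        rintro a b (h | h)
        · subst h; exact ⟨a.2, Or.inl rfl⟩
        · exact ⟨a.2.step hP' h, Or.inr h.1⟩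
      obtain ⟨ha, g1⟩ := key x a g1
      obtain ⟨hb, g2⟩ := key ⟨a, ha⟩ b g2
      obtain ⟨hy, g3⟩ := key ⟨b, hb⟩ y.1 g3
      exact ⟨⟨a, ha⟩, ⟨b, hb⟩, g1, g2, g3⟩)
  refine ⟨L.map ⟨Subtype.val, Subtype.val_injective⟩, by rwa [Finset.card_map], ?_, ?_⟩
  · intro d hd
    obtain ⟨x, -, rfl⟩ := Finset.mem_map.1 hd
    exact x.2
  · intro v hv
    obtain ⟨d, hd, h3⟩ := h2 ⟨v, hv⟩
    refine ⟨d.1, Finset.mem_map.2 ⟨d, hd, rfl⟩, ?_⟩
    rcases h3 with h3 | h3
    · exact Or.inl (congrArg Subtype.val h3)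
    · exact Or.inr h3

/-- one more round -/
theorem refine_step [Finite α] (hG : IsG E) (hP : NoP5 E) {k j : ℕ}
    (hk : KF E k fun _ => True) (A : Finset α)
    (hj : ∀ p, Bad E A p → KF E (j + 1) (fun w => co (ec E A) p w)) :
    ∃ A' : Finset α, A ⊆ A' ∧ A'.card ≤ A.card + 2 ^ (k + 2) * (4 ^ A.card * 4 ^ A.card) *
      (1 + (2 ^ (k + k) + 2 ^ (k + k))) ∧
      ∀ p, Bad E A' p → KF E j (fun w => co (ec E A') p w) := by
  classical
  have hG' : IsG (ec E A) := ec.isG hG
  have hP' : NoP5 (ec E A) := ec.noP5 hP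
  obtain ⟨L, hL1, hL2, hL3⟩ := badhit hG hP hk A
  choose D hD1 hD2 hD3 using unit_dom hG hP hk A
  refine ⟨A ∪ L.biUnion D, Finset.subset_union_left, ?_, ?_⟩
  · refine (Finset.card_union_le _ _).trans (Nat.add_le_add_left ?_ _)
    refine (Finset.card_biUnion_le_card_mul L D _ fun p _ => hD1 p).trans ?_
    exact Nat.mul_le_mul_right _ hL1
  · set B := A ∪ L.biUnion D with hB
    have hAB : A ⊆ B := Finset.subset_union_left
    have hco : ∀ {v w}, co (ec E B) v w → co (ec E A) v w := fun h =>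
      co_mono (fun x y h => h.mono hAB) h
    rintro v ⟨q, z, h1, h2, h3, h4⟩
    by_cases hc : ∃ p ∈ L, co (ec E A) p v
    · obtain ⟨p, hp, hpv⟩ := hc
      obtain ⟨d, hd, h5⟩ := hD3 p v hpv
      have hdB : d ∈ B := Finset.mem_union_right _ (Finset.mem_biUnion.2 ⟨p, hp, hd⟩)
      rcases h5 with h5 | h5
      · have h6 : q = d := (h1.2 d hdB).1.1 h5
        rw [h6, h5] at h1
        exact absurd h1.1 hG.irr
      · have h6 := hj p (hL2 p hp) d (hD2 p d hd)
        refine h6.mono fun w hw => ⟨hpv.trans hP' (hco hw), ?_⟩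
        exact hG.symm ((co_sty hw d hdB).2.1 h5)
    · exfalso
      push Not at hc
      have nb : ∀ x, co (ec E A) v x → ¬ Bad E A x := by
        intro x hx hb
        obtain ⟨p, hp, hpx⟩ := hL3 x hb
        exact hc p hp (hpx.trans hP' (hx.symm hG'))
      have hvz : co (ec E A) v z := by
        by_contra hvz
        exact nb v (co.refl v) ⟨q, z, h1.mono hAB, hvz, h3, h4⟩
      have hne : ¬ sty E B v z := fun h => h2 (co.of_adj ⟨hG.symm h3, h⟩)
      unfold sty at hne
      push Not at hne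
      obtain ⟨a, ha, hva⟩ := hne
      have hA := co_sty hvz
      rcases Finset.mem_union.1 ha with ha | ha
      · have h5 := hA a ha
        rcases hva h5.1 with h | h
        · exact h.2 (h5.2.1 h.1)
        · exact h.1 (h5.2.2 h.2)
      · obtain ⟨p, hp, hda⟩ := Finset.mem_biUnion.1 ha
        have hpa : co (ec E A) p a := hD2 p a hda
        have hna : ∀ x, co (ec E A) v x → ¬ co (ec E A) x a := by
          intro x hx h
          exact hc p hp (hpa.trans hP' ((h.symm hG').trans hP' (hx.symm hG')))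
        have g1 : v ≠ a := by
          rintro rfl
          exact hna _ (co.refl _) (co.refl _)
        have g2 : z ≠ a := by
          rintro rfl
          exact hna _ hvz (co.refl _)
        have hezv : ec E A z v := ⟨h3, hA.symm⟩
        rcases hva ⟨fun h => absurd h g1, fun h => absurd h g2⟩ with h | h
        · exact nb v (co.refl v) ⟨z, a, hG'.symm hezv, hna v (co.refl v), hG.symm h.1,
            fun g => h.2 (hG.symm g)⟩
        · exact nb z hvz ⟨v, a, hezv, hna z hvz, hG.symm h.2, fun g => h.1 (hG.symm g)⟩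

/-- a good set of bounded size -/
theorem goodset (k : ℕ) : ∀ r, r ≤ k → ∃ c : ℕ, ∀ (α : Type) [Finite α] [Nonempty α]
    (E : α → α → Prop), IsG E → NoP5 E → KF E (k + 1) (fun _ => True) → (∀ x y, co E x y) →
      ∃ A : Finset α, A.card ≤ c ∧ (∀ v, ∃ d ∈ A, v = d ∨ E v d) ∧
        ∀ p, Bad E A p → KF E (k - r) (fun w => co (ec E A) p w) := by
  intro r
  induction r with
  | zero =>
    intro _
    refine ⟨1 + (2 ^ (k + 1 + (k + 1)) + 2 ^ (k + 1 + (k + 1))), ?_⟩
    intro α _ _ E hG hP hk hcn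
    obtain ⟨A, h1, h2⟩ := dom hG hP hk hcn
    refine ⟨A, h1, h2, ?_⟩
    rintro p ⟨q, z, h3, -⟩
    obtain ⟨d, hd, h4⟩ := h2 p
    rcases h4 with h4 | h4
    · have h6 : q = d := (h3.2 d hd).1.1 h4
      rw [h6, h4] at h3
      exact absurd h3.1 hG.irr
    · exact (hk d trivial).mono fun w hw => ⟨trivial, hG.symm ((co_sty hw d hd).2.1 h4)⟩
  | succ r ih =>
    intro hr
    obtain ⟨c, hc⟩ := ih (by omega)
    refine ⟨c + 2 ^ (k + 1 + 2) * (4 ^ c * 4 ^ c) *
      (1 + (2 ^ (k + 1 + (k + 1)) + 2 ^ (k + 1 + (k + 1)))), ?_⟩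
    intro α _ _ E hG hP hk hcn
    obtain ⟨A, h1, h2, h3⟩ := hc α E hG hP hk hcn
    have e : k - r = k - (r + 1) + 1 := by omega
    rw [e] at h3
    obtain ⟨A', g1, g2, g3⟩ := refine_step hG hP hk A h3
    refine ⟨A', g2.trans ?_, fun v => ?_, g3⟩
    · gcongr <;> norm_num
    · obtain ⟨d, hd, h4⟩ := h2 v
      exact ⟨d, g1 hd, h4⟩

end Pool.Agent.H.MP_6f30b3_lc.kt
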