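import Pool.Agent.H.MP_6f30b3_lc.h34.Conn

/-!
MP_6f30b3_lc: graphs without induced path on five vertices and without large cliques have small
dominating sets.
-/

namespace Pool.Agent.H.MP_6f30b3_lc.kt

open Pool.Agent.H.MP_6f30b3_lc.h34

/-- no clique on `k + 1` vertices inside `S` -/
def KF {α : Type*} (E : α → α → Prop) : ℕ → (α → Prop) → Prop
  | 0, S => ∀ x, ¬ S x
  | k + 1, S => ∀ x, S x → KF E k (fun y => S y ∧ E x y)

theorem KF.comap {α β : Type*} {E : α → α → Prop} {F : β → β → Prop} (f : β → α) :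
    ∀ {k : ℕ} {S : α → Prop} {T : β → Prop}, KF E k S → (∀ x, T x → S (f x)) →
      (∀ x y, T x → T y → F x y → E (f x) (f y)) → KF F k T := by
  intro k
  induction k with
  | zero => intro S T h h1 _ x hx; exact h _ (h1 x hx)
  | succ k ih =>
    intro S T h h1 h2 x hx
    refine ih (h (f x) (h1 x hx)) ?_ ?_
    · rintro y ⟨hy, hxy⟩
      exact ⟨h1 y hy, h2 x y hx hy hxy⟩
    · rintro y z ⟨hy, -⟩ ⟨hz, -⟩ hyz
      exact h2 y z hy hz hyz

theorem KF.mono {α : Type*} {E : α → α → Prop} {k : ℕ} {S T : α → Prop} (h : KF E k S)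
    (hT : ∀ x, T x → S x) : KF E k T := h.comap id hT fun _ _ _ _ h => h

theorem KF.succ {α : Type*} {E : α → α → Prop} : ∀ {k : ℕ} {S : α → Prop}, KF E k S →
    KF E (k + 1) S := by
  intro k
  induction k with
  | zero => intro S h x hx; exact absurd hx (h x)
  | succ k ih => intro S h x hx; exact ih (h x hx)

theorem KF.one {α : Type*} {E : α → α → Prop} {k : ℕ} {S : α → Prop} (h : KF E 1 S) :
    KF E (k + 1) S := by
  induction k with
  | zero => exact h
  | succ k ih => exact ih.succ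

/-- a bound of Ramsey type -/
theorem ram {ι : Type*} [DecidableEq ι] (P Q : ι → ι → Prop) : ∀ (n k m : ℕ), k + m = n →
    ∀ A : Finset ι, KF P k (· ∈ A) → KF Q m (· ∈ A) →
      (∀ i ∈ A, ∀ j ∈ A, i ≠ j → P i j ∨ Q i j) → A.card + 1 ≤ 2 ^ n := by
  classical
  intro n
  induction n with
  | zero =>
    intro k m hkm A hP _ _
    obtain rfl : k = 0 := by omega
    have : A = ∅ := Finset.eq_empty_of_forall_notMem fun x hx => hP x hx
    simp [this]
  | succ n ih =>
    intro k m hkm A hP hQ h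
    rcases A.eq_empty_or_nonempty with rfl | ⟨i, hi⟩
    · rw [Finset.card_empty, Nat.zero_add]
      exact Nat.one_le_two_pow
    · obtain _ | k := k
      · exact absurd hi (hP i)
      obtain _ | m := m
      · exact absurd hi (hQ i)
      have h1 := ih k (m + 1) (by omega) (A.filter (P i))
        ((hP i hi).mono fun x hx => Finset.mem_filter.1 hx)
        (hQ.mono fun x hx => (Finset.mem_filter.1 hx).1)
        (fun a ha b hb => h a (Finset.mem_filter.1 ha).1 b (Finset.mem_filter.1 hb).1)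
      have h2 := ih (k + 1) m (by omega) (A.filter (Q i))
        (hP.mono fun x hx => (Finset.mem_filter.1 hx).1)
        ((hQ i hi).mono fun x hx => Finset.mem_filter.1 hx)
        (fun a ha b hb => h a (Finset.mem_filter.1 ha).1 b (Finset.mem_filter.1 hb).1)
      have h3 : A ⊆ insert i (A.filter (P i) ∪ A.filter (Q i)) := by
        intro j hj
        by_cases hij : i = j
        · exact Finset.mem_insert.2 (Or.inl hij.symm)
        · refine Finset.mem_insert.2 (Or.inr (Finset.mem_union.2 ?_))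
          rcases h i hi j hj hij with h' | h'
          · exact Or.inl (Finset.mem_filter.2 ⟨hj, h'⟩)
          · exact Or.inr (Finset.mem_filter.2 ⟨hj, h'⟩)
      have h4 := Finset.card_le_card h3
      have h5 := Finset.card_insert_le i (A.filter (P i) ∪ A.filter (Q i))
      have h6 := Finset.card_union_le (A.filter (P i)) (A.filter (Q i))
      rw [pow_succ]
      omega

variable {α : Type*} {E : α → α → Prop}

/-- a covering of bounded size -/
theorem cover [Finite α] {k : ℕ} (A B : α → Prop) (hA : KF E k A)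
    (hB : KF E k B) (hc : ∀ b, B b → ∃ a, A a ∧ E a b)
    (hp : ∀ a a' b b', A a → A a' → B b → B b' → E a b → E a' b' → ¬ E a b' → ¬ E a' b →
      E a a' ∨ E b b') :
    ∃ L : Finset α, L.card ≤ 2 ^ (k + k) ∧ ∀ b, B b → ∃ a ∈ L, E a b := by
  classical
  have := Fintype.ofFinite α
  let Cov : Finset α → Prop := fun L => (∀ a ∈ L, A a) ∧ ∀ b, B b → ∃ a ∈ L, E a b
  have hex : ∃ n, ∃ L, Cov L ∧ L.card = n := by
    refine ⟨_, Finset.univ.filter A, ⟨fun a ha => (Finset.mem_filter.1 ha).2, fun b hb => ?_⟩, rfl⟩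
    obtain ⟨a, ha, hab⟩ := hc b hb
    exact ⟨a, Finset.mem_filter.2 ⟨Finset.mem_univ _, ha⟩, hab⟩
  obtain ⟨L, hL, hn⟩ := Nat.find_spec hex
  have hmin : ∀ L', Cov L' → L.card ≤ L'.card := fun L' h' => by
    rw [hn]; exact Nat.find_min' hex ⟨L', h', rfl⟩
  have hpriv : ∀ a ∈ L, ∃ b, B b ∧ E a b ∧ ∀ a' ∈ L, a' ≠ a → ¬ E a' b := by
    intro a ha
    by_contra hcon
    push Not at hcon
    have h1 : Cov (L.erase a) := by
      refine ⟨fun x hx => hL.1 x (Finset.mem_of_mem_erase hx), fun b hb => ?_⟩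
      obtain ⟨x, hx, hxb⟩ := hL.2 b hb
      by_cases hxa : x = a
      · subst hxa
        obtain ⟨a', h2, h3, h4⟩ := hcon b hb hxb
        exact ⟨a', Finset.mem_erase.2 ⟨h3, h2⟩, h4⟩
      · exact ⟨x, Finset.mem_erase.2 ⟨hxa, hx⟩, hxb⟩
    have h2 := hmin _ h1
    have h3 := Finset.card_erase_lt_of_mem ha
    omega
  have : ∀ a, ∃ b, a ∈ L → B b ∧ E a b ∧ ∀ a' ∈ L, a' ≠ a → ¬ E a' b := by
    intro a
    by_cases ha : a ∈ L
    · obtain ⟨b, hb⟩ := hpriv a ha
      exact ⟨b, fun _ => hb⟩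
    · exact ⟨a, fun h => absurd h ha⟩
  choose w hw using this
  refine ⟨L, ?_, hL.2⟩
  have h1 := ram (fun a a' => E a a') (fun a a' => E (w a) (w a')) (k + k) k k rfl L
    (hA.mono hL.1)
    (hB.comap w (fun x hx => (hw x hx).1) fun x y _ _ h => h)
    (fun a ha a' ha' hne => by
      obtain ⟨h1, h2, h3⟩ := hw a ha
      obtain ⟨h4, h5, h6⟩ := hw a' ha'
      exact hp a a' (w a) (w a') (hL.1 a ha) (hL.1 a' ha') h1 h4 h2 h5 (h6 a ha hne)
        (h3 a' ha' (Ne.symm hne)))
  omega

/-- a dominating set of bounded size -/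
theorem dom [Finite α] [Nonempty α] (hG : IsG E) (hP : NoP5 E) {k : ℕ}
    (hk : KF E k fun _ => True) (hcn : ∀ x y, co E x y) :
    ∃ L : Finset α, L.card ≤ 1 + (2 ^ (k + k) + 2 ^ (k + k)) ∧ ∀ v, ∃ d ∈ L, v = d ∨ E v d := by
  classical
  obtain ⟨v⟩ := ‹Nonempty α›
  let N1 : α → Prop := fun x => E v x
  let N2 : α → Prop := fun y => y ≠ v ∧ ¬ E v y ∧ ∃ x, E v x ∧ E x y
  let N3 : α → Prop := fun z => z ≠ v ∧ ¬ E v z ∧ (∀ x, E v x → ¬ E x z) ∧ ∃ y, N2 y ∧ E y z
  obtain ⟨L1, h1, h2⟩ := cover N1 N2 (hk.mono fun _ _ => trivial) (hk.mono fun _ _ => trivial)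
    (fun b hb => hb.2.2) (by
      intro a a' b b' ha ha' hb hb' hab hab' hn hn'
      by_contra hcon
      push Not at hcon
      exact hP b a v a' b' ⟨hG.symm hab, hG.symm ha, ha', hab', fun h => hb.2.1 (hG.symm h),
        fun h => hn' (hG.symm h), hcon.2, hcon.1, hn, hb'.2.1⟩)
  obtain ⟨L2, h3, h4⟩ := cover N2 N3 (hk.mono fun _ _ => trivial) (hk.mono fun _ _ => trivial)
    (fun b hb => hb.2.2.2) (by
      intro a a' b b' ha ha' hb hb' hab hab' hn hn'
      by_contra hcon
      push Not at hcon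
      obtain ⟨-, ha1, x, hx, hxa⟩ := ha
      obtain ⟨-, ha1', x', hx', hxa'⟩ := ha'
      have e1 : ∀ y, E v y → ¬ E b y := fun y hy h => hb.2.2.1 y hy (hG.symm h)
      have e2 : ∀ y, E v y → ¬ E b' y := fun y hy h => hb'.2.2.1 y hy (hG.symm h)
      by_cases c1 : E x a'
      · exact hP b a x a' b' ⟨hG.symm hab, hG.symm hxa, c1, hab', e1 x hx,
          fun h => hn' (hG.symm h), hcon.2, hcon.1, hn, fun h => e2 x hx (hG.symm h)⟩
      by_cases c2 : E x' a
      · exact hP b a x' a' b' ⟨hG.symm hab, hG.symm c2, hxa', hab', e1 x' hx',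
          fun h => hn' (hG.symm h), hcon.2, hcon.1, hn, fun h => e2 x' hx' (hG.symm h)⟩
      by_cases c3 : E x x'
      · exact hP b a x x' a' ⟨hG.symm hab, hG.symm hxa, c3, hxa', e1 x hx, e1 x' hx',
          fun h => hn' (hG.symm h), fun h => c2 (hG.symm h), hcon.1, c1⟩
      · exact hP b a x v x' ⟨hG.symm hab, hG.symm hxa, hG.symm hx, hx', e1 x hx,
          fun h => hb.2.1 (hG.symm h), e1 x' hx', fun h => ha1 (hG.symm h),
          fun h => c2 (hG.symm h), c3⟩)
  refine ⟨insert v (L1 ∪ L2), ?_, fun z => ?_⟩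
  · have h5 := Finset.card_insert_le v (L1 ∪ L2)
    have h6 := Finset.card_union_le L1 L2
    omega
  · by_cases c0 : z = v
    · exact ⟨v, Finset.mem_insert_self _ _, Or.inl c0⟩
    by_cases c1 : E v z
    · exact ⟨v, Finset.mem_insert_self _ _, Or.inr (hG.symm c1)⟩
    by_cases c2 : ∃ x, E v x ∧ E x z
    · obtain ⟨a, ha, haz⟩ := h2 z ⟨c0, c1, c2⟩
      exact ⟨a, Finset.mem_insert_of_mem (Finset.mem_union_left _ ha), Or.inr (hG.symm haz)⟩
    · push Not at c2
      have c3 : ∃ y, N2 y ∧ E y z := by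
        obtain ⟨x, y, g1, g2, g3⟩ := hcn v z
        have g3' : E y z := by
          rcases g3 with rfl | g3
          · exfalso
            rcases g1 with rfl | g1
            · rcases g2 with rfl | g2
              · exact c0 rfl
              · exact c1 g2
            · rcases g2 with rfl | g2
              · exact c1 g1
              · exact c2 x g1 g2
          · exact g3
        refine ⟨y, ⟨?_, ?_, ?_⟩, g3'⟩
        · rintro rfl; exact c1 g3'
        · intro h; exact c2 y h g3'
        · rcases g1 with rfl | g1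
          · rcases g2 with rfl | g2
            · exact absurd g3' c1
            · exact absurd g3' (c2 y g2)
          · rcases g2 with rfl | g2
            · exact absurd g3' (c2 x g1)
            · exact ⟨x, g1, g2⟩
      obtain ⟨a, ha, haz⟩ := h4 z ⟨c0, c1, c2, c3⟩
      exact ⟨a, Finset.mem_insert_of_mem (Finset.mem_union_right _ ha), Or.inr (hG.symm haz)⟩

end Pool.Agent.H.MP_6f30b3_lc.kt
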